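import Mathlib
import Pool.Graph.R_seed8.TH7.DH.Abs

set_option autoImplicit false

/-!
# Stationary processes of vectors indexed by the finite subsets of `ℕ^d`, and their kernels
-/

namespace Pool.Agent.H53.CI

open Finset Filter Topology Pool.Agent.TH7.DH

/-- the image of a set of tuples under a map applied to all coordinates -/
def im {d : ℕ} {α β : Type} [DecidableEq β] (T : α → β) (A : Finset (Fin d → α)) :
    Finset (Fin d → β) := A.image (fun x i => T (x i))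

lemma mem_im {d : ℕ} {α β : Type} [DecidableEq β] {T : α → β} {A : Finset (Fin d → α)}
    {y : Fin d → β} : y ∈ im T A ↔ ∃ x ∈ A, (fun i => T (x i)) = y := by
  simp [im]

lemma im_im {d : ℕ} {α β γ : Type} [DecidableEq β] [DecidableEq γ] (T : α → β) (U : β → γ)
    (A : Finset (Fin d → α)) : im U (im T A) = im (fun a => U (T a)) A := by
  unfold im
  rw [Finset.image_image]
  rfl

lemma im_union {d : ℕ} {α β : Type} [DecidableEq α] [DecidableEq β] (T : α → β)
    (A B : Finset (Fin d → α)) : im T (A ∪ B) = im T A ∪ im T B := by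
  unfold im
  rw [Finset.image_union]

/-- A stationary process of vectors indexed by the finite subsets of `ℕ^d`. -/
structure Proc (d : ℕ) (H : Type) [NormedAddCommGroup H] [InnerProductSpace ℝ H] where
  X : Finset (Fin d → ℕ) → H
  stat : ∀ (n : ℕ) (T : Fin n → ℕ), Function.Injective T →
    ∀ R : Finset (Fin d → ℕ), (∀ x ∈ R, ∃ i, ∀ k, T k ≠ x i) → ∀ A B : Finset (Fin d → Fin n),
      inner ℝ (X (im T A ∪ R)) (X (im T B ∪ R)) = inner ℝ (X (im Fin.val A)) (X (im Fin.val B))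

variable {d : ℕ} {H : Type} [NormedAddCommGroup H] [InnerProductSpace ℝ H] (Y : Proc d H)

/-- the finite set of the tuples with a property -/
noncomputable def fs {ι : Type} [Fintype ι] (P : (Fin d → ι) → Prop) : Finset (Fin d → ι) := by
  classical exact univ.filter P

lemma mem_fs {ι : Type} [Fintype ι] {P : (Fin d → ι) → Prop} {c : Fin d → ι} :
    c ∈ fs P ↔ P c := by
  simp [fs]

/-- numbering of a finite type -/
noncomputable def num (ι : Type) [Fintype ι] (x : ι) : ℕ := (Fintype.equivFin ι x : ℕ)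

lemma num_inj (ι : Type) [Fintype ι] : Function.Injective (num ι) := by
  intro x y h
  exact (Fintype.equivFin ι).injective (Fin.ext h)

/-- the kernel -/
noncomputable def Proc.K (ι : Type) [Fintype ι] (P Q : (Fin d → ι) → Prop) : ℝ :=
  inner ℝ (Y.X (im (num ι) (fs P))) (Y.X (im (num ι) (fs Q)))

lemma Proc.inv {ι : Type} [Fintype ι] (e : ι → ℕ) (he : Function.Injective e)
    (R : Finset (Fin d → ℕ)) (hR : ∀ x ∈ R, ∃ i, ∀ k, e k ≠ x i) (P Q : (Fin d → ι) → Prop) :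
    inner ℝ (Y.X (im e (fs P) ∪ R)) (Y.X (im e (fs Q) ∪ R)) = Y.K ι P Q := by
  have h1 := Y.stat (Fintype.card ι) (fun k => e ((Fintype.equivFin ι).symm k))
    (fun a b hab => (Fintype.equivFin ι).symm.injective (he hab)) R
    (fun x hx => by
      obtain ⟨i, hi⟩ := hR x hx
      exact ⟨i, fun k => hi _⟩)
    (im (Fintype.equivFin ι) (fs P)) (im (Fintype.equivFin ι) (fs Q))
  rw [im_im, im_im, im_im, im_im] at h1
  simp only [Equiv.symm_apply_apply] at h1
  exact h1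

lemma Proc.K_congr {ι : Type} [Fintype ι] {P Q P' Q' : (Fin d → ι) → Prop}
    (hP : ∀ c, P c ↔ P' c) (hQ : ∀ c, Q c ↔ Q' c) : Y.K ι P Q = Y.K ι P' Q' := by
  have h1 : P = P' := funext fun c => propext (hP c)
  have h2 : Q = Q' := funext fun c => propext (hQ c)
  rw [h1, h2]

lemma im_split {ι ι' : Type} [Fintype ι] [Fintype ι'] (e : ι → ℕ) (g : ι' ↪ ι)
    (P : (Fin d → ι) → Prop) :
    im e (fs P) = im (fun x => e (g x)) (fs (fun c => P (fun t => g (c t)))) ∪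
      im e (fs (fun c => P c ∧ ∃ t, c t ∉ Set.range g)) := by
  ext y
  rw [mem_union, mem_im, mem_im, mem_im]
  constructor
  · rintro ⟨x, hx, rfl⟩
    by_cases h : ∃ t, x t ∉ Set.range g
    · exact Or.inr ⟨x, mem_fs.2 ⟨mem_fs.1 hx, h⟩, rfl⟩
    · push Not at h
      choose z hz using h
      refine Or.inl ⟨z, mem_fs.2 ?_, ?_⟩
      · have : (fun t => g (z t)) = x := funext hz
        rw [this]
        exact mem_fs.1 hx
      · funext i
        rw [hz i]
  · rintro (⟨x, hx, rfl⟩ | ⟨x, hx, rfl⟩)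
    · have h1 : P (fun t => g (x t)) := (mem_fs (P := fun c => P fun t => g (c t))).1 hx
      exact ⟨fun t => g (x t), mem_fs.2 h1, rfl⟩
    · exact ⟨x, mem_fs.2 (mem_fs.1 hx).1, rfl⟩

theorem Proc.K_loc {ι ι' : Type} [Fintype ι] [Fintype ι'] (g : ι' ↪ ι) (P Q : (Fin d → ι) → Prop)
    (h : ∀ c : Fin d → ι, (∃ t, c t ∉ Set.range g) → (P c ↔ Q c)) :
    Y.K ι P Q = Y.K ι' (fun c => P (fun t => g (c t))) (fun c => Q (fun t => g (c t))) := by
  have hPQ : (fun c => P c ∧ ∃ t, c t ∉ Set.range g) = (fun c => Q c ∧ ∃ t, c t ∉ Set.range g) := by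
    funext c
    refine propext ⟨fun hc => ⟨(h c hc.2).1 hc.1, hc.2⟩, fun hc => ⟨(h c hc.2).2 hc.1, hc.2⟩⟩
  unfold Proc.K
  rw [im_split (num ι) g P, im_split (num ι) g Q, ← hPQ]
  refine Y.inv (fun x => num ι (g x)) (fun a b hab => g.injective (num_inj ι hab)) _ ?_ _ _
  intro x hx
  rw [mem_im] at hx
  obtain ⟨c, hc, rfl⟩ := hx
  obtain ⟨-, t, ht⟩ := mem_fs.1 hc
  refine ⟨t, fun k hk => ht ⟨k, num_inj ι hk⟩⟩

/-- the value of the kernel at two equal patterns -/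
noncomputable def Proc.v : ℝ := inner ℝ (Y.X ∅) (Y.X ∅)

lemma Proc.v_nonneg : 0 ≤ Y.v := real_inner_self_nonneg

lemma Proc.inner_self (hd : 1 ≤ d) (R : Finset (Fin d → ℕ)) :
    inner ℝ (Y.X R) (Y.X R) = Y.v := by
  have h := Y.stat 0 Fin.elim0 (fun a => a.elim0) R (fun x _ => ⟨⟨0, hd⟩, fun k => k.elim0⟩) ∅ ∅
  simpa [im, Proc.v] using h

lemma Proc.K_same (ι : Type) [Fintype ι] (hd : 1 ≤ d) (P Q : (Fin d → ι) → Prop)
    (h : ∀ c, P c ↔ Q c) : Y.K ι P Q = Y.v := by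
  rw [Y.K_congr (fun c => Iff.rfl) (fun c => (h c).symm)]
  exact Y.inner_self hd _

lemma Proc.norm_sq (hd : 1 ≤ d) (R : Finset (Fin d → ℕ)) : ‖Y.X R‖ * ‖Y.X R‖ = Y.v := by
  rw [← real_inner_self_eq_norm_mul_norm]
  exact Y.inner_self hd R

lemma Proc.K_abs (hd : 1 ≤ d) (ι : Type) [Fintype ι] (P Q : (Fin d → ι) → Prop) :
    |Y.K ι P Q| ≤ Y.v := by
  unfold Proc.K
  refine (abs_real_inner_le_norm _ _).trans ?_
  have h1 := Y.norm_sq hd (im (num ι) (fs P))
  have h2 := Y.norm_sq hd (im (num ι) (fs Q))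
  nlinarith [sq_nonneg (‖Y.X (im (num ι) (fs P))‖ - ‖Y.X (im (num ι) (fs Q))‖)]

lemma psd_expand (p w₀ : H) (w : ℕ → H) (n : ℕ) (t c' : ℝ) :
    0 ≤ t ^ 2 * inner ℝ p p + c' ^ 2 * inner ℝ w₀ w₀
      + (∑ i ∈ range (n + 1), inner ℝ (w i) (w i)
        + 2 * ∑ j ∈ range (n + 1), ∑ i ∈ range j, inner ℝ (w i) (w j)) / ((n : ℝ) + 1) ^ 2
      - 2 * c' / (n + 1) * ∑ i ∈ range (n + 1), inner ℝ w₀ (w i)
      + 2 * t * c' * inner ℝ p w₀
      - 2 * t / (n + 1) * ∑ i ∈ range (n + 1), inner ℝ p (w i) := by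
  have hsq : ∀ m : ℕ, inner ℝ (∑ i ∈ range m, w i) (∑ i ∈ range m, w i)
      = ∑ i ∈ range m, inner ℝ (w i) (w i)
        + 2 * ∑ j ∈ range m, ∑ i ∈ range j, inner ℝ (w i) (w j) := by
    intro m
    induction m with
    | zero => simp
    | succ m ih =>
      rw [sum_range_succ, sum_range_succ (fun i => inner ℝ (w i) (w i)),
        sum_range_succ (fun j => ∑ i ∈ range j, inner ℝ (w i) (w j)), inner_add_left,
        inner_add_right, inner_add_right, ih, sum_inner, inner_sum]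
      have : ∑ i ∈ range m, inner ℝ (w m) (w i) = ∑ i ∈ range m, inner ℝ (w i) (w m) :=
        sum_congr rfl fun i _ => real_inner_comm _ _
      rw [this]
      ring
  have h0 : 0 ≤ inner ℝ ((1 / ((n : ℝ) + 1)) • (∑ i ∈ range (n + 1), w i) - c' • w₀ - t • p)
      ((1 / ((n : ℝ) + 1)) • (∑ i ∈ range (n + 1), w i) - c' • w₀ - t • p) :=
    real_inner_self_nonneg
  refine h0.trans (le_of_eq ?_)
  simp only [inner_sub_left, inner_sub_right, real_inner_smul_left, real_inner_smul_right]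
  rw [hsq (n + 1), inner_sum, inner_sum, sum_inner, sum_inner]
  have h1 : ∑ i ∈ range (n + 1), inner ℝ (w i) w₀ = ∑ i ∈ range (n + 1), inner ℝ w₀ (w i) :=
    sum_congr rfl fun i _ => real_inner_comm _ _
  have h2 : ∑ i ∈ range (n + 1), inner ℝ (w i) p = ∑ i ∈ range (n + 1), inner ℝ p (w i) :=
    sum_congr rfl fun i _ => real_inner_comm _ _
  have h3 : inner ℝ w₀ p = inner ℝ p w₀ := real_inner_comm _ _
  rw [h1, h2, h3]
  generalize (n : ℝ) + 1 = x
  ring

/-- positivity -/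
theorem Proc.K_psd (ι : Type) [Fintype ι]
    (p w₀ : (Fin d → ι) → Prop) (w : ℕ → (Fin d → ι) → Prop) (n : ℕ) (t c' : ℝ) :
    0 ≤ t ^ 2 * Y.K ι p p + c' ^ 2 * Y.K ι w₀ w₀
      + (∑ i ∈ range (n + 1), Y.K ι (w i) (w i)
        + 2 * ∑ j ∈ range (n + 1), ∑ i ∈ range j, Y.K ι (w i) (w j)) / ((n : ℝ) + 1) ^ 2
      - 2 * c' / (n + 1) * ∑ i ∈ range (n + 1), Y.K ι w₀ (w i)
      + 2 * t * c' * Y.K ι p w₀
      - 2 * t / (n + 1) * ∑ i ∈ range (n + 1), Y.K ι p (w i) :=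
  psd_expand (Y.X (im (num ι) (fs p))) (Y.X (im (num ι) (fs w₀)))
    (fun i => Y.X (im (num ι) (fs (w i)))) n t c'

end Pool.Agent.H53.CI
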