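import Mathlib
import Pool.Agent.H53.CI.Ind

set_option autoImplicit false

/-!
# Planting blocks
-/

namespace Pool.Agent.H53.CI

open Finset Filter Topology Pool.Agent.TH7.DH

variable {d : ℕ} {H : Type} [NormedAddCommGroup H] [InnerProductSpace ℝ H]

/-- the box `{0, ..., s - 1}^d` -/
def ic (d s : ℕ) : Finset (Fin d → ℕ) := im Fin.val (univ : Finset (Fin d → Fin s))

lemma mem_ic {d s : ℕ} {x : Fin d → ℕ} : x ∈ ic d s ↔ ∀ i, x i < s := by
  unfold ic
  rw [mem_im]
  constructor
  · rintro ⟨y, -, rfl⟩ i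
    exact (y i).2
  · intro h
    exact ⟨fun i => ⟨x i, h i⟩, mem_univ _, rfl⟩

/-- translation -/
def sh (s : ℕ) (A : Finset (Fin d → ℕ)) : Finset (Fin d → ℕ) := im (fun x => x + s) A

/-- the correlation of the empty pattern and of the box of size `s` -/
noncomputable def Proc.cor (Y : Proc d H) (s : ℕ) : ℝ := inner ℝ (Y.X ∅) (Y.X (ic d s))

lemma Proc.κ_eq (Y : Proc d H) (s : ℕ) :
    Y.κ 0 Empty (fun x => x.elim) s = Y.cor s := by
  unfold Proc.κ Proc.Φ
  have hinj : Function.Injective (Sum.inr : Fin s → Empty ⊕ Fin s) := Sum.inr_injective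
  have h1 : Y.K (Empty ⊕ Fin s) (fun c => ¬ Hit 0 (Sum.elim (fun x : Empty => (x.elim : ℕ))
      (fun _ : Fin s => 0)) c) (fun _ => True) = Y.K (Fin s) (fun _ => False) (fun _ => True) := by
    rw [Y.K_loc (ι' := Fin s) ⟨Sum.inr, hinj⟩]
    · refine Y.K_congr ?_ ?_
      · intro c
        simp [Hit]
      · intro c
        exact Iff.rfl
    · rintro c ⟨t, ht⟩
      exfalso
      rcases hct : c t with x | x
      · exact x.elim
      · exact ht ⟨x, hct.symm⟩
  rw [h1, ← Y.inv Fin.val Fin.val_injective ∅ (by simp)]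
  have h2 : im Fin.val (fs (fun _ : Fin d → Fin s => False)) = ∅ := by
    ext x
    rw [mem_im]
    constructor
    · rintro ⟨y, hy, -⟩
      exact (mem_fs.1 hy).elim
    · intro h
      exact absurd h (notMem_empty _)
  have h3 : im Fin.val (fs (fun _ : Fin d → Fin s => True)) = ic d s := by
    unfold ic
    congr 1
    ext x
    simp [mem_fs]
  rw [h2, h3, union_empty, union_empty]
  rfl

lemma Proc.cor_zero (Y : Proc d H) (hd : 1 ≤ d) : Y.cor 0 = Y.v := by
  unfold Proc.cor Proc.v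
  have : ic d 0 = ∅ := by
    ext x
    rw [mem_ic]
    constructor
    · intro h
      exact absurd (h ⟨0, hd⟩) (Nat.not_lt_zero _)
    · intro h
      exact absurd h (notMem_empty _)
  rw [this]

lemma Proc.cor_bdd (Y : Proc d H) (hd : 1 ≤ d) : Bdd Y.cor := by
  have h : Y.cor = Y.κ 0 Empty (fun x => x.elim) := funext fun s => (Y.κ_eq s).symm
  rw [h]
  exact Y.κ_bdd hd _ _ _

/-- the mean of the correlations is at least `-(1 - 2^(1-d)) v` -/
theorem Proc.mean_cor (Y : Proc d H) (hd : 1 ≤ d) :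
    -((1 - 2 * (1 / 2) ^ d) * Y.v) ≤ mean Y.cor := by
  have h := Y.main hd d le_rfl Empty (fun x => x.elim) (fun x => x.elim)
  have e : d - d = 0 := Nat.sub_self d
  rw [e] at h
  have h1 : Y.κ 0 Empty (fun x => x.elim) = Y.cor := funext fun s => Y.κ_eq s
  rw [h1, Y.cor_zero hd] at h
  have h2 := (abs_le.1 h).1
  linarith

theorem Proc.exists_cor (Y : Proc d H) (hd : 1 ≤ d) {ε : ℝ} (hε : 0 < ε) :
    ∃ s, 1 ≤ s ∧ -((1 - 2 * (1 / 2) ^ d) * Y.v) - ε ≤ Y.cor s := by
  have h1 : mean (fun s => (-1) * Y.cor s) ≤ (1 - 2 * (1 / 2) ^ d) * Y.v := by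
    rw [mean_smul _ (Y.cor_bdd hd)]
    have := Y.mean_cor hd
    linarith
  obtain ⟨s, hs, h2⟩ := exists_le_of_mean ((Y.cor_bdd hd).smul (-1)) h1 hε 1
  exact ⟨s, hs, by linarith⟩

/-- a pattern on two disjoint blocks -/
lemma Proc.two (Y : Proc d H) {s n : ℕ} (F G : Finset (Fin d → Fin s))
    (A B : Finset (Fin d → Fin n)) (T : Fin n → ℕ) (hT : Function.Injective T)
    (R : Finset (Fin d → ℕ)) (hR : ∀ x ∈ R, ∃ i, ∀ k, T k ≠ x i) :
    inner ℝ (Y.X (im Fin.val F ∪ sh s (im T A ∪ R))) (Y.X (im Fin.val G ∪ sh s (im T B ∪ R)))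
      = Y.K (Fin s ⊕ Fin n) (fun c => c ∈ im Sum.inl F ∪ im Sum.inr A)
          (fun c => c ∈ im Sum.inl G ∪ im Sum.inr B) := by
  have hinj : Function.Injective (Sum.elim Fin.val (fun k => T k + s) : Fin s ⊕ Fin n → ℕ) := by
    rintro (x | x) (y | y) h
    · simp only [Sum.elim_inl] at h
      rw [Fin.ext h]
    · simp only [Sum.elim_inl, Sum.elim_inr] at h
      have := x.2
      omega
    · simp only [Sum.elim_inl, Sum.elim_inr] at h
      have := y.2
      omega
    · simp only [Sum.elim_inr] at h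
      rw [hT (Nat.add_right_cancel h)]
  rw [← Y.inv _ hinj (sh s R)]
  · have key : ∀ (F : Finset (Fin d → Fin s)) (A : Finset (Fin d → Fin n)),
        im (Sum.elim Fin.val (fun k => T k + s) : Fin s ⊕ Fin n → ℕ)
          (fs (fun c => c ∈ im Sum.inl F ∪ im Sum.inr A)) ∪ sh s R
        = im Fin.val F ∪ sh s (im T A ∪ R) := by
      intro F A
      have h1 : fs (fun c : Fin d → Fin s ⊕ Fin n => c ∈ im Sum.inl F ∪ im Sum.inr A)
          = im Sum.inl F ∪ im Sum.inr A := by
        ext c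
        exact mem_fs
      rw [h1, im_union, im_im, im_im]
      unfold sh
      rw [im_union, im_im]
      simp only [Sum.elim_inl, Sum.elim_inr]
      rw [union_assoc]
    rw [key, key]
  · intro x hx
    unfold sh at hx
    rw [mem_im] at hx
    obtain ⟨y, hy, rfl⟩ := hx
    obtain ⟨i, hi⟩ := hR y hy
    refine ⟨i, ?_⟩
    rintro (k | k)
    · simp only [Sum.elim_inl]
      have := k.2
      omega
    · simp only [Sum.elim_inr]
      have := hi k
      omega

/-- the difference process -/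
noncomputable def Proc.step (Y : Proc d H) (s : ℕ) : Proc d H where
  X := fun A => (1 / 2 : ℝ) • (Y.X (sh s A) - Y.X (ic d s ∪ sh s A))
  stat := by
    intro n T hT R hR A B
    have e0 : ∀ A : Finset (Fin d → ℕ), sh s A
        = im Fin.val (∅ : Finset (Fin d → Fin s)) ∪ sh s A := by
      intro A
      simp [im]
    have e1 : ∀ A : Finset (Fin d → ℕ), ic d s ∪ sh s A
        = im Fin.val (univ : Finset (Fin d → Fin s)) ∪ sh s A := fun A => rfl
    have e2 : ∀ A : Finset (Fin d → Fin n), (im Fin.val A : Finset (Fin d → ℕ))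
        = im Fin.val A ∪ ∅ := fun A => by rw [union_empty]
    have key : ∀ F G : Finset (Fin d → Fin s),
        inner ℝ (Y.X (im Fin.val F ∪ sh s (im T A ∪ R))) (Y.X (im Fin.val G ∪ sh s (im T B ∪ R)))
        = inner ℝ (Y.X (im Fin.val F ∪ sh s (im Fin.val A)))
            (Y.X (im Fin.val G ∪ sh s (im Fin.val B))) := by
      intro F G
      rw [Y.two F G A B T hT R hR, e2 A, e2 B,
        Y.two F G A B Fin.val Fin.val_injective ∅ (by simp)]
    simp only [real_inner_smul_left, real_inner_smul_right, inner_sub_left, inner_sub_right]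
    rw [e0 (im T A ∪ R), e0 (im T B ∪ R), e0 (im Fin.val A), e0 (im Fin.val B)]
    have k1 := key ∅ ∅
    have k2 := key ∅ univ
    have k3 := key univ ∅
    have k4 := key univ univ
    have e3 : ∀ A : Finset (Fin d → ℕ), ic d s ∪ (im Fin.val (∅ : Finset (Fin d → Fin s)) ∪ sh s A)
        = im Fin.val (univ : Finset (Fin d → Fin s)) ∪ sh s A := by
      intro A
      rw [← e0 A]
      rfl
    rw [e3, e3, e3, e3, k1, k2, k3, k4]

lemma sh_empty (s : ℕ) : sh s (∅ : Finset (Fin d → ℕ)) = ∅ := by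
  simp [sh, im]

lemma Proc.step_v (Y : Proc d H) (hd : 1 ≤ d) (s : ℕ) :
    (Y.step s).v = (1 / 2) * (Y.v - Y.cor s) := by
  have h1 : (Y.step s).v = inner ℝ ((1 / 2 : ℝ) • (Y.X (sh s ∅) - Y.X (ic d s ∪ sh s ∅)))
      ((1 / 2 : ℝ) • (Y.X (sh s ∅) - Y.X (ic d s ∪ sh s ∅))) := rfl
  rw [h1, sh_empty, union_empty]
  simp only [real_inner_smul_left, real_inner_smul_right, inner_sub_left, inner_sub_right]
  rw [Y.inner_self hd, Y.inner_self hd, real_inner_comm]
  unfold Proc.cor
  ring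

end Pool.Agent.H53.CI
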