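import Mathlib
import Pool.Agent.H53.CI.Step

set_option autoImplicit false

/-!
# Cubes of patterns
-/

namespace Pool.Agent.H53.CI

open Finset Filter Topology Pool.Agent.TH7.DH

variable {d : ℕ} {H : Type} [NormedAddCommGroup H] [InnerProductSpace ℝ H]

/-- `1` for `false` and `-1` for `true` -/
def sg (b : Bool) : ℝ := if b then -1 else 1

/-- the parity character of the cube -/
def sgn {n : ℕ} (x : Fin n → Bool) : ℝ := ∏ i, sg (x i)

lemma sum_cons {n : ℕ} {M : Type} [AddCommMonoid M] (f : (Fin (n + 1) → Bool) → M) :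
    ∑ x, f x = ∑ x' : Fin n → Bool, (f (Fin.cons false x') + f (Fin.cons true x')) := by
  rw [← (Fin.consEquiv (fun _ : Fin (n + 1) => Bool)).sum_comp f, Fintype.sum_prod_type_right]
  refine sum_congr rfl fun x' _ => ?_
  rw [Fintype.sum_bool, add_comm]
  rfl

lemma sgn_cons {n : ℕ} (b : Bool) (x : Fin n → Bool) :
    sgn (Fin.cons b x : Fin (n + 1) → Bool) = sg b * sgn x := by
  unfold sgn
  rw [Fin.prod_univ_succ]
  simp

/-- the patterns at the two ends of an edge of the cube differ by a cube of the index set -/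
def Adj {n : ℕ} (P : (Fin n → Bool) → Finset (Fin d → ℕ)) : Prop :=
  ∀ x i, x i = false → ∃ (k : ℕ) (T : Fin k → ℕ), 1 ≤ k ∧ Function.Injective T ∧
    (∀ c ∈ P x, ∃ j, ∀ m, T m ≠ c j) ∧ P (Function.update x i true) = im T univ ∪ P x

lemma Proc.cor_abs (Y : Proc d H) (hd : 1 ≤ d) (s : ℕ) : |Y.cor s| ≤ Y.v := by
  rw [← Y.κ_eq s]
  exact Y.K_abs hd _ _ _

lemma Proc.exists_step (Y : Proc d H) (hd : 1 ≤ d) {ε : ℝ} (hε : 0 < ε) :
    ∃ s, 1 ≤ s ∧ (Y.step s).v ≤ (1 - (1 / 2) ^ d + ε) * Y.v := by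
  rcases Y.v_nonneg.eq_or_lt with h0 | h0
  · refine ⟨1, le_rfl, ?_⟩
    have h1 := Y.cor_abs hd 1
    rw [← h0] at h1
    have h2 := abs_nonpos_iff.1 h1
    rw [Y.step_v hd, h2, ← h0]
    simp
  · obtain ⟨s, hs, h1⟩ := Y.exists_cor hd (ε := 2 * (ε * Y.v)) (by positivity)
    refine ⟨s, hs, ?_⟩
    rw [Y.step_v hd]
    nlinarith

/-- one more block -/
def ext {n : ℕ} (s : ℕ) (P : (Fin n → Bool) → Finset (Fin d → ℕ)) (x : Fin (n + 1) → Bool) :
    Finset (Fin d → ℕ) :=
  (if x 0 then ic d s else ∅) ∪ sh s (P (Fin.tail x))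

lemma adj_ext (hd : 1 ≤ d) {n s : ℕ} (hs : 1 ≤ s) {P : (Fin n → Bool) → Finset (Fin d → ℕ)}
    (hP : Adj P) : Adj (ext s P) := by
  intro x i hi
  refine Fin.cases ?_ (fun i => ?_) i hi
  · intro h0
    refine ⟨s, Fin.val, hs, Fin.val_injective, ?_, ?_⟩
    · intro c hc
      unfold ext at hc
      rw [h0] at hc
      simp only [Bool.false_eq_true, if_false, empty_union] at hc
      unfold sh at hc
      rw [mem_im] at hc
      obtain ⟨y, -, rfl⟩ := hc
      refine ⟨⟨0, hd⟩, fun m => ?_⟩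
      have := m.2
      simp only
      omega
    · unfold ext
      rw [h0]
      have h1 : Fin.tail (Function.update x 0 true) = Fin.tail x := by
        funext j
        simp [Fin.tail]
      rw [h1]
      simp [ic]
  · intro h0
    obtain ⟨k, T, hk, hT, h1, h2⟩ := hP (Fin.tail x) i h0
    refine ⟨k, fun m => T m + s, hk, fun a b hab => hT (Nat.add_right_cancel hab), ?_, ?_⟩
    · intro c hc
      unfold ext at hc
      rw [mem_union] at hc
      rcases hc with hc | hc
      · refine ⟨⟨0, hd⟩, fun m => ?_⟩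
        by_cases hx : x 0 = true
        · rw [if_pos hx, mem_ic] at hc
          have := hc ⟨0, hd⟩
          change T m + s ≠ c ⟨0, hd⟩
          omega
        · rw [if_neg hx] at hc
          exact absurd hc (notMem_empty _)
      · unfold sh at hc
        rw [mem_im] at hc
        obtain ⟨y, hy, rfl⟩ := hc
        obtain ⟨j, hj⟩ := h1 y hy
        refine ⟨j, fun m hm => hj m (Nat.add_right_cancel hm)⟩
    · unfold ext
      have h3 : Fin.tail (Function.update x i.succ true) = Function.update (Fin.tail x) i true := by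
        funext j
        simp only [Fin.tail]
        by_cases hj : j = i
        · subst hj
          simp
        · rw [Function.update_of_ne hj, Function.update_of_ne]
          · rfl
          · intro h
            exact hj (Fin.succ_injective _ h)
      have h4 : Function.update x i.succ true 0 = x 0 := by
        rw [Function.update_of_ne]
        exact (Fin.succ_ne_zero i).symm
      rw [h3, h4, h2]
      unfold sh
      rw [im_union, im_im, ← union_assoc, ← union_assoc,
        union_comm (if x 0 = true then ic d s else ∅)]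

lemma Proc.sum_ext (Y : Proc d H) {n s : ℕ} (P : (Fin n → Bool) → Finset (Fin d → ℕ)) :
    (1 / 2 ^ (n + 1) : ℝ) • ∑ x, sgn x • Y.X (ext s P x)
      = (1 / 2 ^ n : ℝ) • ∑ x, sgn x • (Y.step s).X (P x) := by
  rw [sum_cons, smul_sum, smul_sum]
  refine sum_congr rfl fun x _ => ?_
  rw [sgn_cons, sgn_cons]
  have h1 : (Y.step s).X (P x) = (1 / 2 : ℝ) • (Y.X (sh s (P x)) - Y.X (ic d s ∪ sh s (P x))) := rfl
  have h2 : ext s P (Fin.cons false x) = sh s (P x) := by
    unfold ext
    simp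
  have h3 : ext s P (Fin.cons true x) = ic d s ∪ sh s (P x) := by
    unfold ext
    simp
  rw [h1, h2, h3]
  unfold sg
  simp only [Bool.false_eq_true, if_false, if_true]
  rw [pow_succ]
  module

theorem Proc.iter (hd : 1 ≤ d) {ε : ℝ} (hε : 0 < ε) (n : ℕ) : ∀ Y : Proc d H,
    ∃ P : (Fin n → Bool) → Finset (Fin d → ℕ), Adj P ∧
      ‖(1 / 2 ^ n : ℝ) • ∑ x, sgn x • Y.X (P x)‖ ^ 2 ≤ (1 - (1 / 2) ^ d + ε) ^ n * Y.v := by
  have hq : 0 ≤ 1 - ((1 : ℝ) / 2) ^ d + ε := by
    have : ((1 : ℝ) / 2) ^ d ≤ 1 := pow_le_one₀ (by norm_num) (by norm_num)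
    linarith
  induction n with
  | zero =>
    intro Y
    refine ⟨fun _ => ∅, fun x i => i.elim0, ?_⟩
    rw [Fintype.sum_unique]
    simp only [pow_zero, div_one, one_smul, one_mul, sgn, univ_eq_empty, prod_empty]
    rw [← real_inner_self_eq_norm_sq]
    exact le_of_eq rfl
  | succ n ih =>
    intro Y
    obtain ⟨s, hs, h1⟩ := Y.exists_step hd hε
    obtain ⟨P, hP, h2⟩ := ih (Y.step s)
    refine ⟨ext s P, adj_ext hd hs hP, ?_⟩
    rw [Y.sum_ext]
    refine h2.trans ?_
    rw [pow_succ, mul_assoc]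
    exact mul_le_mul_of_nonneg_left h1 (pow_nonneg hq n)

/-- the first block costs a factor `1/2` if adding a single cube gives correlation zero -/
theorem Proc.iter_one (hd : 1 ≤ d) {ε : ℝ} (hε : 0 < ε) (n : ℕ) (Y : Proc d H)
    (hY : Y.cor 1 = 0) :
    ∃ P : (Fin (n + 1) → Bool) → Finset (Fin d → ℕ), Adj P ∧
      ‖(1 / 2 ^ (n + 1) : ℝ) • ∑ x, sgn x • Y.X (P x)‖ ^ 2
        ≤ (1 - (1 / 2) ^ d + ε) ^ n * (Y.v / 2) := by
  obtain ⟨P, hP, h2⟩ := Proc.iter hd hε n (Y.step 1)
  refine ⟨ext 1 P, adj_ext hd le_rfl hP, ?_⟩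
  rw [Y.sum_ext]
  refine h2.trans (le_of_eq ?_)
  rw [Y.step_v hd, hY]
  ring

end Pool.Agent.H53.CI
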