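import Mathlib
import Pool.Agent.H53.CI.Iter

set_option autoImplicit false

/-!
# Independent sets of the cube which are nearly balanced between the two parity classes

Noise operator argument.
-/

namespace Pool.Agent.H53.CI

open Finset

variable {n : ℕ}

/-- flip one coordinate -/
def flip (i : Fin n) (x : Fin n → Bool) : Fin n → Bool := Function.update x i (!x i)

lemma flip_same (i : Fin n) (x : Fin n → Bool) : flip i x i = !x i := by simp [flip]

lemma flip_ne {i j : Fin n} (h : j ≠ i) (x : Fin n → Bool) : flip i x j = x j := by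
  simp [flip, h]

lemma flip_flip (i : Fin n) (x : Fin n → Bool) : flip i (flip i x) = x := by
  funext j
  by_cases h : j = i
  · subst h
    simp [flip]
  · rw [flip_ne h, flip_ne h]

lemma flip_comm (i j : Fin n) (x : Fin n → Bool) : flip i (flip j x) = flip j (flip i x) := by
  by_cases hij : i = j
  · rw [hij]
  funext k
  by_cases h1 : k = i
  · subst h1
    rw [flip_same, flip_ne hij, flip_ne hij, flip_same]
  · by_cases h2 : k = j
    · subst h2
      rw [flip_ne h1, flip_same, flip_same, flip_ne h1]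
    · rw [flip_ne h1, flip_ne h2, flip_ne h2, flip_ne h1]

lemma sum_flip (i : Fin n) (f : (Fin n → Bool) → ℝ) : ∑ x, f (flip i x) = ∑ x, f x :=
  Equiv.sum_comp (Function.Involutive.toPerm (flip i) (flip_flip i)) f

lemma sum_zero_of_anti (i : Fin n) (f : (Fin n → Bool) → ℝ) (h : ∀ x, f (flip i x) = -f x) :
    ∑ x, f x = 0 := by
  have h1 := sum_flip i f
  simp only [h, sum_neg_distrib] at h1
  linarith

lemma sg_not (b : Bool) : sg (!b) = -sg b := by
  cases b <;> simp [sg]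

lemma sg_mul_self (b : Bool) : sg b * sg b = 1 := by
  cases b <;> simp [sg]

lemma sgn_flip (i : Fin n) (x : Fin n → Bool) : sgn (flip i x) = -sgn x := by
  unfold sgn
  rw [← mul_prod_erase univ (fun j => sg (flip i x j)) (mem_univ i),
    ← mul_prod_erase univ (fun j => sg (x j)) (mem_univ i), flip_same, sg_not, neg_mul]
  congr 2
  refine prod_congr rfl fun j hj => ?_
  rw [flip_ne (ne_of_mem_erase hj)]

lemma sgn_mul_self (x : Fin n → Bool) : sgn x * sgn x = 1 := by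
  unfold sgn
  rw [← prod_mul_distrib]
  exact prod_eq_one fun i _ => sg_mul_self _

/-- product of the `i`-th coordinates -/
noncomputable def pr (x y : Fin n → Bool) (i : Fin n) : ℝ := sg (x i) * sg (y i)

lemma pr_sq (x y : Fin n → Bool) (i : Fin n) : pr x y i * pr x y i = 1 := by
  unfold pr
  calc _ = (sg (x i) * sg (x i)) * (sg (y i) * sg (y i)) := by ring
    _ = 1 := by rw [sg_mul_self, sg_mul_self, mul_one]

lemma pr_flip_same (x y : Fin n → Bool) (i : Fin n) : pr x (flip i y) i = -pr x y i := by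
  unfold pr
  rw [flip_same, sg_not]
  ring

lemma pr_flip_ne (x y : Fin n → Bool) {i j : Fin n} (h : j ≠ i) : pr x (flip i y) j = pr x y j := by
  unfold pr
  rw [flip_ne h]

lemma pr_comm (x y : Fin n → Bool) (i : Fin n) : pr x y i = pr y x i := by
  unfold pr
  ring

/-- the kernel of the noise operator (not normalized) -/
noncomputable def w (ρ : ℝ) (x y : Fin n → Bool) : ℝ := ∏ j, (1 + ρ * pr x y j)

/-- the kernel without the `i`-th factor -/
noncomputable def wi (ρ : ℝ) (x y : Fin n → Bool) (i : Fin n) : ℝ :=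
  ∏ j ∈ univ.erase i, (1 + ρ * pr x y j)

lemma w_eq (ρ : ℝ) (x y : Fin n → Bool) (i : Fin n) :
    w ρ x y = (1 + ρ * pr x y i) * wi ρ x y i :=
  (mul_prod_erase univ (fun j => 1 + ρ * pr x y j) (mem_univ i)).symm

lemma wi_flip (ρ : ℝ) (x y : Fin n → Bool) (i : Fin n) : wi ρ x (flip i y) i = wi ρ x y i := by
  unfold wi
  refine prod_congr rfl fun j hj => ?_
  rw [pr_flip_ne x y (ne_of_mem_erase hj)]

lemma wi_comm (ρ : ℝ) (x y : Fin n → Bool) (i : Fin n) : wi ρ x y i = wi ρ y x i := by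
  unfold wi
  refine prod_congr rfl fun j _ => ?_
  rw [pr_comm]

lemma key_id (ρ : ℝ) (x y : Fin n → Bool) (i : Fin n) :
    (pr x y i - ρ) * w ρ x y = (1 - ρ ^ 2) * (pr x y i * wi ρ x y i) := by
  rw [w_eq ρ x y i]
  have := pr_sq x y i
  calc (pr x y i - ρ) * ((1 + ρ * pr x y i) * wi ρ x y i)
      = (pr x y i - ρ + ρ * (pr x y i * pr x y i) - ρ ^ 2 * pr x y i) * wi ρ x y i := by ring
    _ = _ := by rw [this]; ring

lemma one_add_nonneg {ρ : ℝ} (h0 : 0 ≤ ρ) (h1 : ρ ≤ 1) (x y : Fin n → Bool) (j : Fin n) :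
    0 ≤ 1 + ρ * pr x y j := by
  unfold pr
  cases x j <;> cases y j <;> simp [sg] <;> linarith

lemma w_nonneg {ρ : ℝ} (h0 : 0 ≤ ρ) (h1 : ρ ≤ 1) (x y : Fin n → Bool) : 0 ≤ w ρ x y :=
  prod_nonneg fun j _ => one_add_nonneg h0 h1 x y j

lemma sum_w (ρ : ℝ) (x : Fin n → Bool) : ∑ y, w ρ x y = 2 ^ n := by
  have h := (Finset.prod_univ_sum (fun _ : Fin n => (univ : Finset Bool))
    (fun j b => (1 + ρ * (sg (x j) * sg b)))).symm
  rw [Fintype.piFinset_univ] at h
  have h1 : ∑ y, w ρ x y = ∑ p : Fin n → Bool, ∏ j, (1 + ρ * (sg (x j) * sg (p j))) := rfl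
  rw [h1, h]
  have h2 : ∀ j : Fin n, ∑ b : Bool, (1 + ρ * (sg (x j) * sg b)) = 2 := by
    intro j
    rw [Fintype.sum_bool]
    simp [sg]
    ring
  rw [prod_congr rfl fun j _ => h2 j]
  simp

lemma sum_wi (ρ : ℝ) (x : Fin n → Bool) (i : Fin n) : ∑ y, wi ρ x y i = 2 ^ n := by
  rw [← sum_w ρ x]
  have h1 : ∀ y, w ρ x y = wi ρ x y i + ρ * (pr x y i * wi ρ x y i) := by
    intro y
    rw [w_eq ρ x y i]
    ring
  rw [sum_congr rfl fun y _ => h1 y, sum_add_distrib, ← mul_sum,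
    sum_zero_of_anti i (fun y => pr x y i * wi ρ x y i), mul_zero, add_zero]
  intro y
  rw [pr_flip_same, wi_flip, neg_mul]

lemma cov_ne (ρ : ℝ) (x : Fin n → Bool) {i k : Fin n} (h : k ≠ i) :
    ∑ y, w ρ x y * ((pr x y i - ρ) * (pr x y k - ρ)) = 0 := by
  refine (sum_congr rfl fun y _ => ?_).trans
    (sum_zero_of_anti i (fun y => (1 - ρ ^ 2) * (pr x y i * wi ρ x y i) * (pr x y k - ρ)) ?_)
  · rw [← key_id]
    ring
  · intro y
    rw [pr_flip_same, wi_flip, pr_flip_ne x y h]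
    ring

lemma cov_eq (ρ : ℝ) (x : Fin n → Bool) (i : Fin n) :
    ∑ y, w ρ x y * ((pr x y i - ρ) * (pr x y i - ρ)) = 2 ^ n * (1 - ρ ^ 2) := by
  have h1 : ∀ y, w ρ x y * ((pr x y i - ρ) * (pr x y i - ρ))
      = (1 - ρ ^ 2) * wi ρ x y i + (-(ρ * (1 - ρ ^ 2))) * (pr x y i * wi ρ x y i) := by
    intro y
    have h2 := pr_sq x y i
    calc w ρ x y * ((pr x y i - ρ) * (pr x y i - ρ))
        = ((pr x y i - ρ) * w ρ x y) * (pr x y i - ρ) := by ring
      _ = (1 - ρ ^ 2) * ((pr x y i * pr x y i) * wi ρ x y i - ρ * (pr x y i * wi ρ x y i)) := by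
          rw [key_id]; ring
      _ = _ := by rw [h2]; ring
  rw [sum_congr rfl fun y _ => h1 y, sum_add_distrib, ← mul_sum, ← mul_sum, sum_wi,
    sum_zero_of_anti i (fun y => pr x y i * wi ρ x y i)]
  · ring
  · intro y
    rw [pr_flip_same, wi_flip, neg_mul]

lemma sum_sq (ρ : ℝ) (x : Fin n → Bool) (lam : Fin n → ℝ) :
    ∑ y, w ρ x y * (∑ i, lam i * (pr x y i - ρ)) ^ 2 = 2 ^ n * (1 - ρ ^ 2) * ∑ i, lam i ^ 2 := by
  have h1 : ∀ y, w ρ x y * (∑ i, lam i * (pr x y i - ρ)) ^ 2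
      = ∑ i, ∑ k, lam i * lam k * (w ρ x y * ((pr x y i - ρ) * (pr x y k - ρ))) := by
    intro y
    rw [sq, sum_mul_sum, mul_sum]
    refine sum_congr rfl fun i _ => ?_
    rw [mul_sum]
    refine sum_congr rfl fun k _ => ?_
    ring
  rw [sum_congr rfl fun y _ => h1 y, sum_comm, mul_sum]
  refine sum_congr rfl fun i _ => ?_
  rw [sum_comm]
  rw [sum_eq_single i]
  · rw [← mul_sum, cov_eq]
    ring
  · intro k _ hk
    rw [← mul_sum, cov_ne ρ x hk, mul_zero]
  · intro h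
    exact absurd (mem_univ i) h

/-- the bound for one point -/
lemma point_bound {ρ : ℝ} (h0 : 0 ≤ ρ) (h1 : ρ < 1) (x : Fin n → Bool) (lam : Fin n → ℝ)
    (g : (Fin n → Bool) → ℝ) (hg : ∀ y, |g y| ≤ 1) :
    ∑ i, lam i * ∑ y, g y * (pr x y i * wi ρ x y i)
      ≤ 2 ^ n * (Real.sqrt (∑ i, lam i ^ 2) * (1 / Real.sqrt (1 - ρ ^ 2))) := by
  have hρ : 0 < 1 - ρ ^ 2 := by nlinarith
  have e1 : (1 - ρ ^ 2) * ∑ i, lam i * ∑ y, g y * (pr x y i * wi ρ x y i)
      = ∑ y, g y * (w ρ x y * ∑ i, lam i * (pr x y i - ρ)) := by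
    rw [mul_sum]
    have : ∀ i, (1 - ρ ^ 2) * (lam i * ∑ y, g y * (pr x y i * wi ρ x y i))
        = ∑ y, g y * (w ρ x y * (lam i * (pr x y i - ρ))) := by
      intro i
      rw [mul_sum, mul_sum]
      refine sum_congr rfl fun y _ => ?_
      calc (1 - ρ ^ 2) * (lam i * (g y * (pr x y i * wi ρ x y i)))
          = lam i * g y * ((1 - ρ ^ 2) * (pr x y i * wi ρ x y i)) := by ring
        _ = _ := by rw [← key_id]; ring
    rw [sum_congr rfl fun i _ => this i, sum_comm]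
    refine sum_congr rfl fun y _ => ?_
    rw [mul_sum, mul_sum]
  have e2 : ∑ y, g y * (w ρ x y * ∑ i, lam i * (pr x y i - ρ))
      ≤ ∑ y, Real.sqrt (w ρ x y) * (Real.sqrt (w ρ x y) * |∑ i, lam i * (pr x y i - ρ)|) := by
    refine sum_le_sum fun y _ => ?_
    have hw := w_nonneg h0 h1.le x y
    rw [← mul_assoc (Real.sqrt _), Real.mul_self_sqrt hw]
    calc g y * (w ρ x y * ∑ i, lam i * (pr x y i - ρ))
        ≤ |g y * (w ρ x y * ∑ i, lam i * (pr x y i - ρ))| := le_abs_self _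
      _ = |g y| * (w ρ x y * |∑ i, lam i * (pr x y i - ρ)|) := by
          rw [abs_mul, abs_mul, abs_of_nonneg hw]
      _ ≤ 1 * (w ρ x y * |∑ i, lam i * (pr x y i - ρ)|) :=
          mul_le_mul_of_nonneg_right (hg y) (by positivity)
      _ = _ := one_mul _
  have e3 := Real.sum_mul_le_sqrt_mul_sqrt univ (fun y => Real.sqrt (w ρ x y))
    (fun y => Real.sqrt (w ρ x y) * |∑ i, lam i * (pr x y i - ρ)|)
  have e4 : ∑ y, Real.sqrt (w ρ x y) ^ 2 = 2 ^ n := by
    rw [← sum_w ρ x]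
    exact sum_congr rfl fun y _ => Real.sq_sqrt (w_nonneg h0 h1.le x y)
  have e5 : ∑ y, (Real.sqrt (w ρ x y) * |∑ i, lam i * (pr x y i - ρ)|) ^ 2
      = 2 ^ n * (1 - ρ ^ 2) * ∑ i, lam i ^ 2 := by
    rw [← sum_sq ρ x lam]
    refine sum_congr rfl fun y _ => ?_
    rw [mul_pow, Real.sq_sqrt (w_nonneg h0 h1.le x y), sq_abs]
  rw [e4, e5] at e3
  have e6 : Real.sqrt (2 ^ n) * Real.sqrt (2 ^ n * (1 - ρ ^ 2) * ∑ i, lam i ^ 2)
      = 2 ^ n * (Real.sqrt (1 - ρ ^ 2) * Real.sqrt (∑ i, lam i ^ 2)) := by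
    rw [Real.sqrt_mul (by positivity), Real.sqrt_mul (by positivity), ← mul_assoc, ← mul_assoc,
      Real.mul_self_sqrt (by positivity), mul_assoc]
  rw [e6] at e3
  have e7 := (e1.le.trans e2).trans e3
  have hs : 0 < Real.sqrt (1 - ρ ^ 2) := Real.sqrt_pos.2 hρ
  have e8 : 2 ^ n * (Real.sqrt (1 - ρ ^ 2) * Real.sqrt (∑ i, lam i ^ 2))
      = (1 - ρ ^ 2) * (2 ^ n * (Real.sqrt (∑ i, lam i ^ 2) * (1 / Real.sqrt (1 - ρ ^ 2)))) := by
    nth_rewrite 2 [← Real.mul_self_sqrt hρ.le]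
    field_simp
  rw [e8] at e7
  exact le_of_mul_le_mul_left e7 hρ

/-- noise stability (not normalized) -/
noncomputable def phi (g : (Fin n → Bool) → ℝ) (ρ : ℝ) : ℝ := ∑ x, ∑ y, g x * g y * w ρ x y

lemma hasDerivAt_w (x y : Fin n → Bool) (ρ : ℝ) :
    HasDerivAt (fun ρ => w ρ x y) (∑ i, pr x y i * wi ρ x y i) ρ := by
  have h := HasDerivAt.fun_finsetProd (u := (univ : Finset (Fin n)))
    (f := fun j (ρ : ℝ) => 1 + ρ * pr x y j) (f' := fun j => pr x y j) (x := ρ) ?_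
  · refine h.congr_deriv ?_
    refine sum_congr rfl fun i _ => ?_
    rw [smul_eq_mul, mul_comm]
    rfl
  · intro j _
    have := ((hasDerivAt_id ρ).mul_const (pr x y j)).const_add 1
    simpa using this

lemma hasDerivAt_phi (g : (Fin n → Bool) → ℝ) (ρ : ℝ) :
    HasDerivAt (phi g) (∑ x, ∑ y, g x * g y * ∑ i, pr x y i * wi ρ x y i) ρ := by
  unfold phi
  refine HasDerivAt.fun_sum fun x _ => HasDerivAt.fun_sum fun y _ => ?_
  exact (hasDerivAt_w x y ρ).const_mul _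

end Pool.Agent.H53.CI
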