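import Mathlib
import Pool.Agent.H53.CI.Cube

set_option autoImplicit false

/-!
# The isoperimetric inequality for independent sets of the cube
-/

namespace Pool.Agent.H53.CI

open Finset

variable {n : ℕ}

/-- the part of the derivative belonging to `x` and `i` -/
noncomputable def TT (g : (Fin n → Bool) → ℝ) (ρ : ℝ) (i : Fin n) (x : Fin n → Bool) : ℝ :=
  ∑ y, g y * (pr x y i * wi ρ x y i)

lemma TT_flip (g : (Fin n → Bool) → ℝ) (ρ : ℝ) (i : Fin n) (x : Fin n → Bool) :
    TT g ρ i (flip i x) = -TT g ρ i x := by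
  unfold TT
  rw [← sum_neg_distrib]
  refine sum_congr rfl fun y _ => ?_
  rw [pr_comm (flip i x) y, pr_flip_same, wi_comm ρ (flip i x) y, wi_flip, pr_comm y x,
    wi_comm ρ y x]
  ring

/-- `lam` splits every sensitive edge between its two ends -/
def Split (g : (Fin n → Bool) → ℝ) (lam : (Fin n → Bool) → Fin n → ℝ) : Prop :=
  ∀ x i, (g (flip i x) = -g x ∧ lam x i + lam (flip i x) i = 1) ∨
    (g (flip i x) = g x ∧ lam x i = 0)

lemma sum_split {g : (Fin n → Bool) → ℝ} {lam : (Fin n → Bool) → Fin n → ℝ} (h : Split g lam)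
    (ρ : ℝ) (i : Fin n) :
    ∑ x, g x * TT g ρ i x = 2 * ∑ x, lam x i * (g x * TT g ρ i x) := by
  have h1 : ∑ x, g x * TT g ρ i x = (1 / 2) * ∑ x, (g x - g (flip i x)) * TT g ρ i x := by
    have h2 := sum_flip i (fun x => g x * TT g ρ i x)
    simp only [TT_flip] at h2
    have h3 : ∑ x, (g x - g (flip i x)) * TT g ρ i x
        = ∑ x, g x * TT g ρ i x + ∑ x, g (flip i x) * -TT g ρ i x := by
      rw [← sum_add_distrib]
      exact sum_congr rfl fun x _ => by ring
    rw [h3, h2]
    ring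
  have h4 : ∑ x, lam x i * (g x * TT g ρ i x)
      = (1 / 2) * ∑ x, (lam x i * g x - lam (flip i x) i * g (flip i x)) * TT g ρ i x := by
    have h2 := sum_flip i (fun x => lam x i * (g x * TT g ρ i x))
    simp only [TT_flip] at h2
    have h3 : ∑ x, (lam x i * g x - lam (flip i x) i * g (flip i x)) * TT g ρ i x
        = ∑ x, lam x i * (g x * TT g ρ i x)
          + ∑ x, lam (flip i x) i * (g (flip i x) * -TT g ρ i x) := by
      rw [← sum_add_distrib]
      exact sum_congr rfl fun x _ => by ring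
    rw [h3, h2]
    ring
  rw [h1, h4, mul_sum, mul_sum, mul_sum]
  refine sum_congr rfl fun x _ => ?_
  rcases h x i with ⟨h5, h6⟩ | ⟨h5, h6⟩
  · rw [h5]
    have : lam (flip i x) i = 1 - lam x i := by linarith
    rw [this]
    ring
  · have h7 := h (flip i x) i
    rw [flip_flip] at h7
    rcases h7 with ⟨h8, h9⟩ | ⟨-, h9⟩
    · rw [h5] at h8
      rw [h5, h6]
      have : g x = 0 := by linarith
      rw [this]
      ring
    · rw [h5, h6, h9]
      ring

/-- the derivative of the noise stability -/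
lemma deriv_bound {g : (Fin n → Bool) → ℝ} {lam : (Fin n → Bool) → Fin n → ℝ} (h : Split g lam)
    (hg : ∀ x, g x * g x = 1) {ρ : ℝ} (h0 : 0 ≤ ρ) (h1 : ρ < 1) :
    ∑ x, ∑ y, g x * g y * ∑ i, pr x y i * wi ρ x y i
      ≤ 2 * (2 ^ n * ((∑ x, Real.sqrt (∑ i, lam x i ^ 2)) * (1 / Real.sqrt (1 - ρ ^ 2)))) := by
  have hg1 : ∀ x, |g x| ≤ 1 := by
    intro x
    rw [abs_le]
    constructor <;> nlinarith [hg x]
  have e1 : ∑ x, ∑ y, g x * g y * ∑ i, pr x y i * wi ρ x y i = ∑ i, ∑ x, g x * TT g ρ i x := by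
    rw [sum_comm (s := (univ : Finset (Fin n)))]
    refine sum_congr rfl fun x _ => ?_
    rw [← mul_sum]
    unfold TT
    rw [sum_comm, mul_sum]
    refine sum_congr rfl fun y _ => ?_
    rw [mul_assoc, mul_sum]
  rw [e1, sum_congr rfl fun i _ => sum_split h ρ i, ← mul_sum, sum_comm]
  refine mul_le_mul_of_nonneg_left ?_ (by norm_num)
  rw [sum_mul, mul_sum]
  refine sum_le_sum fun x _ => ?_
  have e2 := point_bound h0 h1 x (fun i => lam x i * g x) g hg1
  have e3 : ∀ i, (lam x i * g x) ^ 2 = lam x i ^ 2 := by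
    intro i
    rw [mul_pow, sq (g x), hg, mul_one]
  simp only [e3] at e2
  refine le_trans (le_of_eq ?_) e2
  refine sum_congr rfl fun i _ => ?_
  unfold TT
  ring

lemma phi_zero (g : (Fin n → Bool) → ℝ) : phi g 0 = (∑ x, g x) ^ 2 := by
  unfold phi w
  simp only [zero_mul, add_zero, prod_const_one, mul_one]
  rw [sq, sum_mul_sum]

lemma w_one_ne {x y : Fin n → Bool} (h : x ≠ y) : w 1 x y = 0 := by
  have : ∃ i, x i ≠ y i := by
    by_contra hcon
    push Not at hcon
    exact h (funext hcon)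
  obtain ⟨i, hi⟩ := this
  refine prod_eq_zero (mem_univ i) ?_
  unfold pr
  cases hx : x i <;> cases hy : y i <;> simp_all [sg]

lemma w_one_same (x : Fin n → Bool) : w 1 x x = 2 ^ n := by
  unfold w pr
  have : ∀ j : Fin n, 1 + 1 * (sg (x j) * sg (x j)) = 2 := by
    intro j
    rw [sg_mul_self]
    norm_num
  rw [prod_congr rfl fun j _ => this j]
  simp

lemma phi_one {g : (Fin n → Bool) → ℝ} (hg : ∀ x, g x * g x = 1) : phi g 1 = 2 ^ n * 2 ^ n := by
  unfold phi
  have : ∀ x, ∑ y, g x * g y * w 1 x y = 2 ^ n := by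
    intro x
    rw [sum_eq_single x]
    · rw [hg, w_one_same, one_mul]
    · intro y _ hy
      rw [w_one_ne hy.symm, mul_zero]
    · intro h
      exact absurd (mem_univ x) h
  rw [sum_congr rfl fun x _ => this x]
  simp

/-- the isoperimetric inequality with split edges -/
theorem iso {g : (Fin n → Bool) → ℝ} {lam : (Fin n → Bool) → Fin n → ℝ} (h : Split g lam)
    (hg : ∀ x, g x * g x = 1) :
    2 ^ n * 2 ^ n - (∑ x, g x) ^ 2 ≤ Real.pi * (2 ^ n * ∑ x, Real.sqrt (∑ i, lam x i ^ 2)) := by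
  set C : ℝ := 2 * (2 ^ n * ∑ x, Real.sqrt (∑ i, lam x i ^ 2)) with hC
  have hd : ∀ ρ, HasDerivAt (phi g) (∑ x, ∑ y, g x * g y * ∑ i, pr x y i * wi ρ x y i) ρ :=
    fun ρ => hasDerivAt_phi g ρ
  have hcont : Continuous (phi g) := by
    rw [continuous_iff_continuousAt]
    exact fun ρ => (hd ρ).continuousAt
  have hanti : AntitoneOn (fun ρ => phi g ρ - C * Real.arcsin ρ) (Set.Icc 0 1) := by
    have hder : ∀ x ∈ interior (Set.Icc (0 : ℝ) 1), HasDerivAt
        (fun ρ => phi g ρ - C * Real.arcsin ρ)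
        ((∑ x', ∑ y, g x' * g y * ∑ i, pr x' y i * wi x x' y i)
          - C * (1 / Real.sqrt (1 - x ^ 2))) x := by
      intro x hx
      rw [interior_Icc, Set.mem_Ioo] at hx
      exact (hd x).sub ((Real.hasDerivAt_arcsin (by linarith [hx.1]) (by linarith [hx.2])).const_mul C)
    refine antitoneOn_of_deriv_nonpos (convex_Icc 0 1) ?_ ?_ ?_
    · exact (hcont.sub (continuous_const.mul Real.continuous_arcsin)).continuousOn
    · intro x hx
      exact (hder x hx).differentiableAt.differentiableWithinAt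
    · intro x hx
      rw [(hder x hx).deriv]
      rw [interior_Icc, Set.mem_Ioo] at hx
      have := deriv_bound h hg hx.1.le hx.2
      have e : C * (1 / Real.sqrt (1 - x ^ 2)) = 2 * (2 ^ n *
          ((∑ x, Real.sqrt (∑ i, lam x i ^ 2)) * (1 / Real.sqrt (1 - x ^ 2)))) := by
        rw [hC]
        ring
      linarith
  have h1 := hanti (Set.left_mem_Icc.2 zero_le_one) (Set.right_mem_Icc.2 zero_le_one) zero_le_one
  simp only at h1
  rw [Real.arcsin_one, Real.arcsin_zero, phi_zero, phi_one hg] at h1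
  have e : Real.pi * (2 ^ n * ∑ x, Real.sqrt (∑ i, lam x i ^ 2)) = C * (Real.pi / 2) := by
    rw [hC]
    ring
  rw [e]
  linarith

end Pool.Agent.H53.CI
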