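import Mathlib
import Pool.Agent.H53.CI.Iso

set_option autoImplicit false

/-!
# The cube inequality, general dimension
-/

namespace Pool.Agent.H53.CI

open Finset

variable {n : ℕ}

/-- `1` for `true` and `0` for `false` -/
noncomputable def ind (b : Bool) : ℝ := if b then 1 else 0

/-- `F` is (the indicator of) an independent set of the cube -/
def Indep (F : (Fin n → Bool) → Bool) : Prop :=
  ∀ x i, x i = false → ¬ (F x = true ∧ F (Function.update x i true) = true)

/-- The cube inequality: for independent sets `F` of the `n`-cube with density `1/2 - η` and `b`,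
`a` the densities within the even and the odd class, `η ≥ c (1 - (b - a)^2)`. -/
def CubeIneq (n : ℕ) (c : ℝ) : Prop := ∀ F : (Fin n → Bool) → Bool, Indep F →
  c * (1 - (2 * (∑ x, sgn x * ind (F x)) / 2 ^ n) ^ 2) ≤ 1 / 2 - (∑ x, ind (F x)) / 2 ^ n

lemma Indep.flip {F : (Fin n → Bool) → Bool} (h : Indep F) (x : Fin n → Bool) (i : Fin n) :
    ¬ (F x = true ∧ F (flip i x) = true) := by
  cases hx : x i
  · have := h x i hx
    have e : CI.flip i x = Function.update x i true := by
      unfold CI.flip
      rw [hx]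
      rfl
    rw [e]
    exact this
  · have h1 := h (CI.flip i x) i (by rw [flip_same, hx]; rfl)
    have e : Function.update (CI.flip i x) i true = x := by
      funext j
      by_cases hj : j = i
      · subst hj
        simp [hx]
      · rw [Function.update_of_ne hj, flip_ne hj]
    rw [e] at h1
    exact fun ⟨h2, h3⟩ => h1 ⟨h3, h2⟩

section

variable (F : (Fin n → Bool) → Bool)

/-- the indicator of the sensitive edges -/
noncomputable def se (x : Fin n → Bool) (i : Fin n) : ℝ :=
  if F x = false ∧ F (flip i x) = false then 1 else 0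

/-- number of sensitive directions -/
noncomputable def aa (x : Fin n → Bool) : ℝ := ∑ i, se F x i

lemma se_flip (x : Fin n → Bool) (i : Fin n) : se F (flip i x) i = se F x i := by
  unfold se
  rw [flip_flip]
  by_cases h1 : F x = false <;> by_cases h2 : F (flip i x) = false <;> simp [h1, h2]

lemma se_nonneg (x : Fin n → Bool) (i : Fin n) : 0 ≤ se F x i := by
  unfold se
  split_ifs <;> norm_num

lemma se_le (x : Fin n → Bool) (i : Fin n) : se F x i ≤ aa F x :=
  single_le_sum (f := fun i => se F x i) (fun i _ => se_nonneg F x i) (mem_univ i)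

lemma aa_nonneg (x : Fin n → Bool) : 0 ≤ aa F x := sum_nonneg fun i _ => se_nonneg F x i

lemma se_cases (x : Fin n → Bool) (i : Fin n) :
    (se F x i = 1 ∧ F x = false ∧ F (flip i x) = false) ∨
    (se F x i = 0 ∧ ¬ (F x = false ∧ F (flip i x) = false)) := by
  unfold se
  by_cases h : F x = false ∧ F (flip i x) = false
  · exact Or.inl ⟨if_pos h, h⟩
  · exact Or.inr ⟨if_neg h, h⟩

variable {F}

/-- the four-cycle argument -/
lemma four_cycle (h : Indep F) (x : Fin n → Bool) (i : Fin n) (hs : se F x i = 1) :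
    (n : ℝ) ≤ aa F x + aa F (flip i x) := by
  have h1 : ∀ j : Fin n, 1 ≤ se F x j + se F (flip i x) j := by
    intro j
    rcases se_cases F x i with ⟨-, hx, hy⟩ | ⟨h0, -⟩
    · by_cases hj : j = i
      · subst hj
        have := se_nonneg F (flip j x) j
        linarith
      · have h2 := h.flip (flip j x) i
        rw [flip_comm] at h2
        rcases se_cases F x j with ⟨h3, -⟩ | ⟨h3, h4⟩
        · have := se_nonneg F (flip i x) j
          linarith
        · rcases se_cases F (flip i x) j with ⟨h5, -⟩ | ⟨h5, h6⟩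
          · have := se_nonneg F x j
            linarith
          · exfalso
            apply h2
            rw [flip_comm j i]
            constructor
            · by_contra h7
              exact h4 ⟨hx, Bool.eq_false_of_not_eq_true h7⟩
            · by_contra h7
              refine h6 ⟨hy, ?_⟩
              rw [flip_comm j i]
              exact Bool.eq_false_of_not_eq_true h7
    · rw [h0] at hs
      norm_num at hs
  unfold aa
  rw [← sum_add_distrib]
  calc (n : ℝ) = ∑ _j : Fin n, (1 : ℝ) := by simp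
    _ ≤ _ := sum_le_sum fun j _ => h1 j

/-- the function with values `1` and `-1` -/
noncomputable def gg (F : (Fin n → Bool) → Bool) (x : Fin n → Bool) : ℝ :=
  sgn x * (1 - 2 * ind (F x))

/-- the splitting of the edges -/
noncomputable def lm (F : (Fin n → Bool) → Bool) (x : Fin n → Bool) (i : Fin n) : ℝ :=
  se F x i * (aa F x / (aa F x + aa F (flip i x)))

lemma gg_sq (x : Fin n → Bool) : gg F x * gg F x = 1 := by
  unfold gg
  calc _ = (sgn x * sgn x) * ((1 - 2 * ind (F x)) * (1 - 2 * ind (F x))) := by ring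
    _ = 1 := by
      rw [sgn_mul_self]
      unfold ind
      split_ifs <;> norm_num

lemma split_lm (h : Indep F) : Split (gg F) (lm F) := by
  intro x i
  rcases se_cases F x i with ⟨h0, hx, hy⟩ | ⟨h0, h1⟩
  · refine Or.inl ⟨?_, ?_⟩
    · unfold gg
      rw [sgn_flip, hx, hy]
      ring
    · unfold lm
      rw [se_flip, flip_flip, h0, one_mul, one_mul]
      have h2 := se_le F x i
      have h3 := aa_nonneg F (flip i x)
      have h4 : aa F x + aa F (flip i x) ≠ 0 := by
        have : 0 < aa F x + aa F (flip i x) := by linarith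
        exact this.ne'
      rw [add_comm (aa F (flip i x)) (aa F x), ← add_div, div_self h4]
  · refine Or.inr ⟨?_, ?_⟩
    · have h2 := h.flip x i
      unfold gg
      rw [sgn_flip]
      cases hx : F x <;> cases hy : F (flip i x)
      · exact absurd ⟨hx, hy⟩ h1
      · simp [ind]
        ring
      · simp [ind]
        ring
      · exact absurd ⟨hx, hy⟩ h2
    · unfold lm
      rw [h0, zero_mul]

/-- second factor in the bound of the norms -/
noncomputable def MM (F : (Fin n → Bool) → Bool) (x : Fin n → Bool) : ℝ :=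
  ∑ i, se F x i * (aa F x / (aa F x + aa F (flip i x)) ^ 2)

lemma sq_lm (x : Fin n → Bool) : ∑ i, lm F x i ^ 2 = aa F x * MM F x := by
  unfold MM
  rw [mul_sum]
  refine sum_congr rfl fun i _ => ?_
  unfold lm
  generalize aa F x + aa F (flip i x) = s
  rcases se_cases F x i with ⟨h0, -⟩ | ⟨h0, -⟩ <;> rw [h0] <;> ring

lemma MM_nonneg (x : Fin n → Bool) : 0 ≤ MM F x := by
  refine sum_nonneg fun i _ => ?_
  have h1 := se_nonneg F x i
  have h2 := aa_nonneg F x
  positivity

lemma sum_MM (h : Indep F) (hn : 1 ≤ n) : ∑ x, MM F x ≤ (∑ x, aa F x) / (2 * n) := by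
  have hn' : (0 : ℝ) < n := by exact_mod_cast hn
  unfold MM aa
  rw [sum_comm, sum_comm (f := fun x i => se F x i), sum_div]
  refine sum_le_sum fun i _ => ?_
  have h1 := sum_flip i (fun x => se F x i * (aa F x / (aa F x + aa F (flip i x)) ^ 2))
  simp only [se_flip, flip_flip] at h1
  have h2 : ∑ x, se F x i * (aa F x / (aa F x + aa F (flip i x)) ^ 2)
      = (1 / 2) * ∑ x, se F x i * ((aa F x + aa F (flip i x)) / (aa F x + aa F (flip i x)) ^ 2) := by
    have h3 : ∑ x, se F x i * ((aa F x + aa F (flip i x)) / (aa F x + aa F (flip i x)) ^ 2)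
        = ∑ x, se F x i * (aa F x / (aa F x + aa F (flip i x)) ^ 2)
          + ∑ x, se F x i * (aa F (flip i x) / (aa F (flip i x) + aa F x) ^ 2) := by
      rw [← sum_add_distrib]
      refine sum_congr rfl fun x _ => ?_
      rw [add_comm (aa F (flip i x)) (aa F x)]
      ring
    rw [h3, h1]
    ring
  change ∑ x, se F x i * (aa F x / (aa F x + aa F (flip i x)) ^ 2) ≤ _
  rw [h2, mul_sum, sum_div]
  refine sum_le_sum fun x _ => ?_
  rcases se_cases F x i with ⟨h0, -⟩ | ⟨h0, -⟩
  · have h3 := four_cycle h x i h0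
    have h4 : 0 < aa F x + aa F (flip i x) := by linarith
    rw [h0, one_mul]
    have h5 : (aa F x + aa F (flip i x)) / (aa F x + aa F (flip i x)) ^ 2
        = 1 / (aa F x + aa F (flip i x)) := by
      field_simp
    rw [h5]
    have h6 : 1 / (aa F x + aa F (flip i x)) ≤ 1 / n := one_div_le_one_div_of_le hn' h3
    calc 1 / 2 * (1 / (aa F x + aa F (flip i x))) ≤ 1 / 2 * (1 / n) := by linarith
      _ = 1 / (2 * n) := by field_simp
  · rw [h0]
    simp

lemma sum_aa (h : Indep F) : ∑ x, aa F x = n * (2 ^ n - 2 * ∑ x, ind (F x)) := by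
  unfold aa
  rw [sum_comm]
  have h1 : ∀ i : Fin n, ∑ x, se F x i = 2 ^ n - 2 * ∑ x, ind (F x) := by
    intro i
    have h2 : ∀ x, se F x i = 1 - ind (F x) - ind (F (flip i x)) := by
      intro x
      have h3 := h.flip x i
      unfold se ind
      cases hx : F x <;> cases hy : F (flip i x)
      · simp
      · simp
      · simp
      · exact absurd ⟨hx, hy⟩ h3
    rw [sum_congr rfl fun x _ => h2 x, sum_sub_distrib, sum_sub_distrib,
      sum_flip i (fun x => ind (F x))]
    simp
    ring
  rw [sum_congr rfl fun i _ => h1 i, sum_const, card_univ, Fintype.card_fin, nsmul_eq_mul]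

lemma sum_norm (h : Indep F) (hn : 1 ≤ n) :
    ∑ x, Real.sqrt (∑ i, lm F x i ^ 2) ≤ (∑ x, aa F x) / Real.sqrt (2 * n) := by
  have hn' : (0 : ℝ) < n := by exact_mod_cast hn
  set r := Real.sqrt (2 * n) with hr
  have hr0 : 0 < r := Real.sqrt_pos.2 (by positivity)
  have hrr : r * r = 2 * n := Real.mul_self_sqrt (by positivity)
  have h1 : ∀ x, Real.sqrt (∑ i, lm F x i ^ 2) ≤ (1 / 2) * (aa F x / r + r * MM F x) := by
    intro x
    have ha := aa_nonneg F x
    have hM := MM_nonneg (F := F) x
    rw [sq_lm]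
    refine Real.sqrt_le_iff.2 ⟨by positivity, ?_⟩
    have h2 : aa F x * MM F x = (aa F x / r) * (r * MM F x) := by
      field_simp
    rw [h2]
    nlinarith [sq_nonneg (aa F x / r - r * MM F x)]
  refine (sum_le_sum fun x _ => h1 x).trans ?_
  rw [← mul_sum, sum_add_distrib, ← sum_div, ← mul_sum]
  have h2 := sum_MM h hn
  have h3 : r * ∑ x, MM F x ≤ (∑ x, aa F x) / r := by
    rw [le_div_iff₀ hr0]
    rw [le_div_iff₀ (by positivity)] at h2
    calc (r * ∑ x, MM F x) * r = (∑ x, MM F x) * (r * r) := by ring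
      _ = (∑ x, MM F x) * (2 * n) := by rw [hrr]
      _ ≤ _ := h2
  linarith

theorem cubeIneq_general (n : ℕ) (hn : 1 ≤ n) :
    CubeIneq n (1 / (Real.sqrt 2 * Real.pi * Real.sqrt n)) := by
  intro F h
  have hn' : (0 : ℝ) < n := by exact_mod_cast hn
  have h1 := iso (split_lm h) (fun x => gg_sq (F := F) x)
  have h2 := sum_norm h hn
  rw [sum_aa h] at h2
  have h3 : ∑ x, gg F x = -(2 * ∑ x, sgn x * ind (F x)) := by
    have h4 : ∑ x : Fin n → Bool, sgn x = 0 :=
      sum_zero_of_anti ⟨0, hn⟩ sgn fun x => sgn_flip _ x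
    unfold gg
    have : ∀ x : Fin n → Bool, sgn x * (1 - 2 * ind (F x))
        = sgn x - 2 * (sgn x * ind (F x)) := fun x => by ring
    rw [sum_congr rfl fun x _ => this x, sum_sub_distrib, h4, ← mul_sum]
    ring
  rw [h3] at h1
  set E : ℝ := 2 ^ n with hE
  have hE0 : 0 < E := by positivity
  set A : ℝ := ∑ x, sgn x * ind (F x)
  set B : ℝ := ∑ x, ind (F x)
  set L : ℝ := ∑ x, Real.sqrt (∑ i, lm F x i ^ 2)
  -- the square roots
  have hs2 : 0 < Real.sqrt 2 := Real.sqrt_pos.2 (by norm_num)
  have hsn : 0 < Real.sqrt n := Real.sqrt_pos.2 hn'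
  have hs : Real.sqrt (2 * n) = Real.sqrt 2 * Real.sqrt n := Real.sqrt_mul (by norm_num) _
  have hnn : Real.sqrt n * Real.sqrt n = n := Real.mul_self_sqrt hn'.le
  have h22 : Real.sqrt 2 * Real.sqrt 2 = 2 := Real.mul_self_sqrt (by norm_num)
  have h5 : n * (E - 2 * B) / Real.sqrt (2 * n) = Real.sqrt 2 * Real.sqrt n * (E / 2 - B) := by
    rw [hs, div_eq_iff (by positivity)]
    calc n * (E - 2 * B) = (Real.sqrt n * Real.sqrt n) * (Real.sqrt 2 * Real.sqrt 2)
          * (E / 2 - B) := by rw [hnn, h22]; ring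
      _ = _ := by ring
  rw [h5] at h2
  have h6 : E * E - (2 * A) ^ 2
      ≤ Real.sqrt 2 * Real.pi * Real.sqrt n * (E * (E / 2 - B)) := by
    have h7 : Real.pi * (E * L) ≤ Real.pi * (E * (Real.sqrt 2 * Real.sqrt n * (E / 2 - B))) := by
      have := Real.pi_pos
      gcongr
    calc E * E - (2 * A) ^ 2 = E * E - (-(2 * A)) ^ 2 := by ring
      _ ≤ _ := h1
      _ ≤ _ := h7
      _ = _ := by ring
  have hp : 0 < Real.sqrt 2 * Real.pi * Real.sqrt n := by
    have := Real.pi_pos
    positivity
  rw [div_mul_eq_mul_div, one_mul, div_le_iff₀ hp]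
  have h8 : 1 - (2 * A / E) ^ 2 = (E * E - (2 * A) ^ 2) / (E * E) := by
    field_simp
  rw [h8, div_le_iff₀ (by positivity)]
  refine h6.trans (le_of_eq ?_)
  field_simp

end

end Pool.Agent.H53.CI
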