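import Mathlib
import Pool.Agent.H53.CI.Ind2

set_option autoImplicit false

/-!
# The cube inequality in dimension four
-/

namespace Pool.Agent.H53.CI

open Finset

/-- parity -/
def par (x : Fin 4 → Bool) : Bool := xor (xor (x 0) (x 1)) (xor (x 2) (x 3))

/-- vertices of the other class not adjacent to `y` -/
def far1 (y : Fin 4 → Bool) : Finset (Fin 4 → Bool) :=
  univ.filter (fun x => par x = !par y ∧ ∀ i, x ≠ flip i y)

lemma far1_card : ∀ y : Fin 4 → Bool, (far1 y).card ≤ 4 := by
  decide +kernel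

lemma far2_card : ∀ y z : Fin 4 → Bool, y ≠ z → par y = par z →
    (far1 y ∩ far1 z).card ≤ 2 := by
  decide +kernel

lemma sgn_par (x : Fin 4 → Bool) : sgn x = if par x then -1 else 1 := by
  unfold sgn par
  rw [Fin.prod_univ_four]
  unfold sg
  cases x 0 <;> cases x 1 <;> cases x 2 <;> cases x 3 <;> simp

/-- members of one parity class -/
def cl (F : (Fin 4 → Bool) → Bool) (b : Bool) : Finset (Fin 4 → Bool) :=
  univ.filter (fun x => F x = true ∧ par x = b)

lemma mem_cl {F : (Fin 4 → Bool) → Bool} {b : Bool} {x : Fin 4 → Bool} :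
    x ∈ cl F b ↔ F x = true ∧ par x = b := by
  simp [cl]

lemma cl_sub_far {F : (Fin 4 → Bool) → Bool} (h : Indep F) {b : Bool} {y : Fin 4 → Bool}
    (hy : y ∈ cl F b) : cl F (!b) ⊆ far1 y := by
  intro x hx
  rw [mem_cl] at hx hy
  unfold far1
  rw [mem_filter]
  refine ⟨mem_univ _, ?_, ?_⟩
  · rw [hx.2, hy.2]
  · intro i hi
    apply h.flip y i
    rw [← hi]
    exact ⟨hy.1, hx.1⟩

lemma cl_one {F : (Fin 4 → Bool) → Bool} (h : Indep F) (b : Bool) (h1 : 1 ≤ (cl F b).card) :
    (cl F (!b)).card ≤ 4 := by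
  obtain ⟨y, hy⟩ := card_pos.1 h1
  exact (card_le_card (cl_sub_far h hy)).trans (far1_card y)

lemma cl_two {F : (Fin 4 → Bool) → Bool} (h : Indep F) (b : Bool) (h1 : 2 ≤ (cl F b).card) :
    (cl F (!b)).card ≤ 2 := by
  obtain ⟨y, hy, z, hz, hyz⟩ := one_lt_card.1 h1
  refine (card_le_card (subset_inter (cl_sub_far h hy) (cl_sub_far h hz))).trans
    (far2_card y z hyz ?_)
  rw [(mem_cl.1 hy).2, (mem_cl.1 hz).2]

lemma cl_le (F : (Fin 4 → Bool) → Bool) (b : Bool) : (cl F b).card ≤ 8 := by
  have h1 : cl F b ⊆ univ.filter (fun x => par x = b) := by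
    intro x hx
    rw [mem_filter]
    exact ⟨mem_univ _, (mem_cl.1 hx).2⟩
  have h2 : ∀ b, (univ.filter (fun x : Fin 4 → Bool => par x = b)).card = 8 := by
    decide +kernel
  exact (card_le_card h1).trans (h2 b).le

lemma sum_cl (F : (Fin 4 → Bool) → Bool) (b : Bool) :
    ∑ x, (if par x = b then ind (F x) else 0) = (cl F b).card := by
  unfold cl
  rw [card_filter]
  push_cast
  refine sum_congr rfl fun x _ => ?_
  unfold ind
  by_cases h1 : F x = true <;> by_cases h2 : par x = b <;> simp [h1, h2]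

theorem cubeIneq_four : CubeIneq 4 (12 / 55) := by
  intro F h
  have h1 := cl_one h false
  have h2 := cl_one h true
  have h3 := cl_two h false
  have h4 := cl_two h true
  have h5 := cl_le F false
  have h6 := cl_le F true
  have e1 : ∑ x, ind (F x) = ((cl F false).card : ℝ) + (cl F true).card := by
    rw [← sum_cl, ← sum_cl, ← sum_add_distrib]
    refine sum_congr rfl fun x _ => ?_
    cases par x <;> simp
  have e2 : ∑ x, sgn x * ind (F x) = ((cl F false).card : ℝ) - (cl F true).card := by
    rw [← sum_cl, ← sum_cl, ← sum_sub_distrib]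
    refine sum_congr rfl fun x _ => ?_
    rw [sgn_par]
    cases par x <;> simp
  rw [e1, e2]
  simp only [Bool.not_false, Bool.not_true] at h1 h2 h3 h4
  generalize (cl F false).card = p at *
  generalize (cl F true).card = t at *
  interval_cases p <;> interval_cases t <;> first | omega | norm_num

end Pool.Agent.H53.CI
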