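import Mathlib
import Pool.Agent.H53.CI.Ind2
import Pool.Agent.H56.HJ.Iso

set_option autoImplicit false

/-!
# The cube inequality with `c = 1 / (2 √(2 n - 1))`

This is the isoperimetric inequality of helper56 (two-point induction over the dimension), in the
notation used here.
-/

namespace Pool.Agent.H53.CI

open Finset

/-- the vertices of the two models of the cube -/
def toF : (n : ℕ) → Pool.Agent.H56.HJ.Cube n → (Fin n → Bool)
  | 0, _ => Fin.elim0
  | n + 1, x => Fin.cons x.2 (toF n x.1)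

lemma sum_toF (n : ℕ) (g : (Fin n → Bool) → ℝ) : ∑ x, g (toF n x) = ∑ y, g y := by
  induction n with
  | zero =>
    have h : ∑ x : Pool.Agent.H56.HJ.Cube 0, g (toF 0 x) = ∑ x : Unit, g (toF 0 x) := rfl
    rw [h, Fintype.sum_unique, Fintype.sum_unique]
    congr 1
  | succ n ih =>
    rw [Pool.Agent.H56.HJ.sum_cube, sum_cons, ← ih]
    rfl

lemma sgn_toF (n : ℕ) (x : Pool.Agent.H56.HJ.Cube n) :
    Pool.Agent.H56.HJ.sgn n x = sgn (toF n x) := by
  induction n with
  | zero => simp [Pool.Agent.H56.HJ.sgn, sgn]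
  | succ n ih =>
    change Pool.Agent.H56.HJ.sgn n x.1 * (if x.2 then -1 else 1)
      = sgn (Fin.cons x.2 (toF n x.1) : Fin (n + 1) → Bool)
    rw [sgn_cons, ih, mul_comm]
    rfl

lemma up_toF (n : ℕ) (x y : Pool.Agent.H56.HJ.Cube n) (h : Pool.Agent.H56.HJ.Up n x y) :
    ∃ i, toF n x i = false ∧ toF n y = Function.update (toF n x) i true := by
  induction n with
  | zero => exact h.elim
  | succ n ih =>
    rcases h with ⟨h1, h2⟩ | ⟨h1, h2, h3⟩
    · obtain ⟨i, hi, he⟩ := ih _ _ h1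
      refine ⟨i.succ, ?_, ?_⟩
      · change (Fin.cons x.2 (toF n x.1) : Fin (n + 1) → Bool) i.succ = false
        rw [Fin.cons_succ]
        exact hi
      · change (Fin.cons y.2 (toF n y.1) : Fin (n + 1) → Bool)
          = Function.update (Fin.cons x.2 (toF n x.1)) i.succ true
        rw [← Fin.cons_update, he, h2]
    · refine ⟨0, ?_, ?_⟩
      · change (Fin.cons x.2 (toF n x.1) : Fin (n + 1) → Bool) 0 = false
        rw [Fin.cons_zero]
        exact h2
      · change (Fin.cons y.2 (toF n y.1) : Fin (n + 1) → Bool)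
          = Function.update (Fin.cons x.2 (toF n x.1)) 0 true
        rw [Fin.update_cons_zero, h1, h3]

theorem cubeIneq_sqrt (n : ℕ) (hn : 1 ≤ n) :
    CubeIneq n (1 / (2 * Real.sqrt (2 * n - 1))) := by
  obtain ⟨k, rfl⟩ : ∃ k, n = k + 1 := ⟨n - 1, by omega⟩
  intro F hF
  have h1 := Pool.Agent.H56.HJ.iso k (fun x => ind (F (toF (k + 1) x))) ?_ ?_
  · have e1 : Pool.Agent.H56.HJ.mA (k + 1) (fun x => ind (F (toF (k + 1) x)))
        = (∑ x, ind (F x)) / 2 ^ (k + 1) := by
      unfold Pool.Agent.H56.HJ.mA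
      rw [sum_toF (k + 1) (fun y => ind (F y))]
    have e2 : Pool.Agent.H56.HJ.mB (k + 1) (fun x => ind (F (toF (k + 1) x)))
        = (∑ x, sgn x * ind (F x)) / 2 ^ (k + 1) := by
      unfold Pool.Agent.H56.HJ.mB
      simp only [sgn_toF]
      rw [sum_toF (k + 1) (fun y => sgn y * ind (F y))]
    rw [e1, e2] at h1
    have e3 : (2 : ℝ) * ((k + 1 : ℕ) : ℝ) - 1 = 2 * k + 1 := by
      push_cast
      ring
    rw [e3]
    have e4 : (2 * (∑ x, sgn x * ind (F x)) / 2 ^ (k + 1)) ^ 2
        = 4 * ((∑ x, sgn x * ind (F x)) / 2 ^ (k + 1)) ^ 2 := by ring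
    rw [e4, div_mul_eq_mul_div, one_mul]
    linarith
  · intro x
    unfold ind
    split_ifs
    · exact Or.inr rfl
    · exact Or.inl rfl
  · intro x y hxy
    obtain ⟨i, hi, he⟩ := up_toF _ _ _ hxy
    have h2 := hF _ i hi
    rw [← he] at h2
    unfold ind
    cases h3 : F (toF (k + 1) x)
    · exact Or.inl (by simp)
    · cases h4 : F (toF (k + 1) y)
      · exact Or.inr (by simp)
      · exact absurd ⟨h3, h4⟩ h2

end Pool.Agent.H53.CI
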