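import Mathlib
import Pool.Agent.H53.CI.Four
import Pool.Graph.R_pool_sql_team_seeded_b3bd081e.Results.MP_90b327_co.FractionalColouring

set_option autoImplicit false

/-!
# The process of a stationary system of events
-/

namespace Pool.Agent.H53.CI

open Finset MeasureTheory
open Pool.Agent.Results.MP_90b327_co.FractionalColouring (Stationary StatRecurrence icube mem_icube)

variable {d : ℕ} {Ω : Type} [MeasurableSpace Ω] {P : Measure Ω} [IsProbabilityMeasure P]
  {B : Finset (Fin d → ℕ) → Set Ω}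

/-- the joint law of two events is a sum over patterns -/
lemma pair_law {n : ℕ} (E : Finset (Fin d → Fin n) → Set Ω) (hE : ∀ A', MeasurableSet (E A'))
    (A₁ A₂ : Finset (Fin d → Fin n)) :
    P.real (E A₁ ∩ E A₂) = ∑ F ∈ univ.filter (fun F : Finset (Finset (Fin d → Fin n)) =>
      A₁ ∈ F ∧ A₂ ∈ F), P.real {ω | ∀ A', A' ∈ F ↔ ω ∈ E A'} := by
  classical
  let Φ : Ω → Finset (Finset (Fin d → Fin n)) := fun ω => univ.filter (fun A' => ω ∈ E A')
  have hΦ0 : ∀ ω A', A' ∈ Φ ω ↔ ω ∈ E A' := by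
    intro ω A'
    simp [Φ]
  have hpre : ∀ F, Φ ⁻¹' {F} = {ω | ∀ A', A' ∈ F ↔ ω ∈ E A'} := by
    intro F
    ext ω
    rw [Set.mem_preimage, Set.mem_singleton_iff]
    constructor
    · intro h1 A'
      rw [← h1, hΦ0]
    · intro h1
      ext A'
      rw [hΦ0]
      exact (h1 A').symm
  have hmeas : ∀ F, MeasurableSet (Φ ⁻¹' {F}) := by
    intro F
    have : Φ ⁻¹' {F} = ⋂ A', (if A' ∈ F then E A' else (E A')ᶜ) := by
      rw [hpre]
      ext ω
      rw [Set.mem_iInter]
      refine forall_congr' fun A' => ?_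
      by_cases hA' : A' ∈ F
      · simp [hA']
      · simp [hA']
    rw [this]
    refine MeasurableSet.iInter fun A' => ?_
    split_ifs
    · exact hE _
    · exact (hE _).compl
  have h1 := sum_measureReal_preimage_singleton (μ := P)
    (univ.filter (fun F : Finset (Finset (Fin d → Fin n)) => A₁ ∈ F ∧ A₂ ∈ F))
    (fun y _ => hmeas y)
  rw [sum_congr rfl fun F _ => by rw [← hpre F], h1]
  congr 1
  ext ω
  simp only [Set.mem_preimage, mem_coe, mem_filter, mem_univ, true_and, hΦ0]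
  exact Iff.rfl

/-- the indicators of the events, as vectors in `L²` -/
noncomputable def proc (hB : ∀ A, MeasurableSet (B A)) (hst : Stationary P B) :
    Proc d (Lp ℝ 2 P) where
  X := fun A => indicatorConstLp 2 (hB A) (measure_ne_top P _) (1 : ℝ)
  stat := by
    intro n T hT R hR A₁ A₂
    rw [L2.real_inner_indicatorConstLp_one_indicatorConstLp_one,
      L2.real_inner_indicatorConstLp_one_indicatorConstLp_one]
    rw [pair_law (P := P) (fun A' : Finset (Fin d → Fin n) => B (im T A' ∪ R)) (fun _ => hB _) A₁ A₂,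
      pair_law (P := P) (fun A' : Finset (Fin d → Fin n) => B (im Fin.val A')) (fun _ => hB _) A₁ A₂]
    refine sum_congr rfl fun F _ => ?_
    exact hst n T hT R hR F

lemma proc_inner (hB : ∀ A, MeasurableSet (B A)) (hst : Stationary P B)
    (A₁ A₂ : Finset (Fin d → ℕ)) :
    inner ℝ ((proc hB hst).X A₁) ((proc hB hst).X A₂) = P.real (B A₁ ∩ B A₂) :=
  L2.real_inner_indicatorConstLp_one_indicatorConstLp_one (hB A₁) (hB A₂)

lemma ic_eq (s : ℕ) : ic d s = icube d (range s) := by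
  ext x
  rw [mem_ic, mem_icube]
  simp

lemma proc_cor (hB : ∀ A, MeasurableSet (B A)) (hst : Stationary P B) (s : ℕ) :
    (proc hB hst).cor s = P.real (B ∅ ∩ B (icube d (range s))) := by
  unfold Proc.cor
  rw [proc_inner, ic_eq]

lemma proc_v (hB : ∀ A, MeasurableSet (B A)) (hst : Stationary P B) :
    (proc hB hst).v = P.real (B ∅) := by
  unfold Proc.v
  rw [proc_inner, Set.inter_self]

lemma adj_zero (hB : ∀ A, MeasurableSet (B A)) (hst : Stationary P B)
    (h0 : ∀ k, 1 ≤ k → P.real (B ∅ ∩ B (icube d (range k))) = 0) {k : ℕ} (hk : 1 ≤ k)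
    (T : Fin k → ℕ) (hT : Function.Injective T) (R : Finset (Fin d → ℕ))
    (hR : ∀ c ∈ R, ∃ j, ∀ m, T m ≠ c j) :
    P.real (B R ∩ B (im T univ ∪ R)) = 0 := by
  have h1 := (proc hB hst).stat k T hT R hR ∅ univ
  rw [proc_inner, proc_inner] at h1
  have e1 : im T (∅ : Finset (Fin d → Fin k)) ∪ R = R := by simp [im]
  have e2 : im Fin.val (∅ : Finset (Fin d → Fin k)) = (∅ : Finset (Fin d → ℕ)) := by simp [im]
  have e3 : im Fin.val (univ : Finset (Fin d → Fin k)) = icube d (range k) := by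
    rw [← ic_eq]
    rfl
  rw [e1, e2, e3, h0 k hk] at h1
  exact h1

open Classical in
/-- the random subset of the cube -/
noncomputable def FF {n : ℕ} (B : Finset (Fin d → ℕ) → Set Ω)
    (Pt : (Fin n → Bool) → Finset (Fin d → ℕ)) (ω : Ω) (x : Fin n → Bool) : Bool :=
  decide (ω ∈ B (Pt x))

omit [MeasurableSpace Ω] in
lemma ind_FF {n : ℕ} (B : Finset (Fin d → ℕ) → Set Ω)
    (Pt : (Fin n → Bool) → Finset (Fin d → ℕ)) (ω : Ω) (x : Fin n → Bool) :
    ind (FF B Pt ω x) = (B (Pt x)).indicator (fun _ => (1 : ℝ)) ω := by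
  classical
  unfold ind FF
  by_cases h : ω ∈ B (Pt x)
  · simp [h]
  · simp [h]

lemma ae_indep (hB : ∀ A, MeasurableSet (B A)) (hst : Stationary P B)
    (h0 : ∀ k, 1 ≤ k → P.real (B ∅ ∩ B (icube d (range k))) = 0) {n : ℕ}
    {Pt : (Fin n → Bool) → Finset (Fin d → ℕ)} (hPt : Adj Pt) :
    ∀ᵐ ω ∂P, Indep (FF B Pt ω) := by
  classical
  have h1 : ∀ (x : Fin n → Bool) (i : Fin n), ∀ᵐ ω ∂P, x i = false →
      ¬ (FF B Pt ω x = true ∧ FF B Pt ω (Function.update x i true) = true) := by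
    intro x i
    by_cases hx : x i = false
    · obtain ⟨k, T, hk, hT, hR, he⟩ := hPt x i hx
      have h2 := adj_zero hB hst h0 hk T hT (Pt x) hR
      rw [← he, measureReal_eq_zero_iff] at h2
      have h3 := measure_eq_zero_iff_ae_notMem.1 h2
      filter_upwards [h3] with ω hω _
      rintro ⟨h4, h5⟩
      apply hω
      unfold FF at h4 h5
      exact ⟨of_decide_eq_true h4, of_decide_eq_true h5⟩
    · exact Filter.Eventually.of_forall fun ω h => absurd h hx
  have h2 := ae_all_iff.2 fun x => ae_all_iff.2 fun i => h1 x i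
  filter_upwards [h2] with ω hω
  exact hω

lemma integral_bb {n : ℕ} (hB : ∀ A, MeasurableSet (B A)) (hst : Stationary P B)
    (Pt : (Fin n → Bool) → Finset (Fin d → ℕ)) (x y : Fin n → Bool) :
    ∫ ω, ind (FF B Pt ω x) * ind (FF B Pt ω y) ∂P
      = inner ℝ ((proc hB hst).X (Pt x)) ((proc hB hst).X (Pt y)) := by
  rw [proc_inner]
  have h1 : ∀ ω, ind (FF B Pt ω x) * ind (FF B Pt ω y)
      = (B (Pt x) ∩ B (Pt y)).indicator (fun _ => (1 : ℝ)) ω := by
    intro ω
    rw [ind_FF, ind_FF]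
    by_cases h1 : ω ∈ B (Pt x) <;> by_cases h2 : ω ∈ B (Pt y) <;> simp [h1, h2]
  simp only [h1]
  rw [integral_indicator_const _ ((hB _).inter (hB _))]
  simp

lemma integrable_bb {n : ℕ} (hB : ∀ A, MeasurableSet (B A))
    (Pt : (Fin n → Bool) → Finset (Fin d → ℕ)) (x y : Fin n → Bool) :
    Integrable (fun ω => ind (FF B Pt ω x) * ind (FF B Pt ω y)) P := by
  have h1 : (fun ω => ind (FF B Pt ω x) * ind (FF B Pt ω y))
      = (B (Pt x) ∩ B (Pt y)).indicator (fun _ => (1 : ℝ)) := by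
    funext ω
    rw [ind_FF, ind_FF]
    by_cases h1 : ω ∈ B (Pt x) <;> by_cases h2 : ω ∈ B (Pt y) <;> simp [h1, h2]
  rw [h1]
  exact (integrable_const (1 : ℝ)).indicator ((hB _).inter (hB _))

lemma ind_sq (b : Bool) : ind b * ind b = ind b := by
  unfold ind
  split_ifs <;> norm_num

/-- the averaged cube inequality -/
theorem averaged (hd : 1 ≤ d) (hB : ∀ A, MeasurableSet (B A)) (hst : Stationary P B)
    (h0 : ∀ k, 1 ≤ k → P.real (B ∅ ∩ B (icube d (range k))) = 0) {n : ℕ} {c : ℝ}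
    (hc : CubeIneq n c) {Pt : (Fin n → Bool) → Finset (Fin d → ℕ)} (hPt : Adj Pt) :
    c * (1 - 4 * ‖(1 / 2 ^ n : ℝ) • ∑ x, sgn x • (proc hB hst).X (Pt x)‖ ^ 2)
      ≤ 1 / 2 - P.real (B ∅) := by
  set b : (Fin n → Bool) → Ω → ℝ := fun x ω => ind (FF B Pt ω x) with hb
  have hint : ∀ x y, Integrable (fun ω => b x ω * b y ω) P := fun x y => integrable_bb hB Pt x y
  have hint1 : ∀ x, Integrable (b x) P := by
    intro x
    have h1 := hint x x
    simp only [hb, ind_sq] at h1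
    exact h1
  have hI : ∀ x, ∫ ω, b x ω ∂P = P.real (B ∅) := by
    intro x
    have h1 := integral_bb hB hst Pt x x
    simp only [ind_sq] at h1
    rw [(proc hB hst).inner_self hd, proc_v] at h1
    exact h1
  -- the square
  have hsq : ∀ ω, c * (1 - (2 * (∑ x, sgn x * b x ω) / 2 ^ n) ^ 2)
      = c - (4 * c / (2 ^ n * 2 ^ n)) * ∑ x, ∑ y, sgn x * sgn y * (b x ω * b y ω) := by
    intro ω
    have h1 : ∑ x, ∑ y, sgn x * sgn y * (b x ω * b y ω) = (∑ x, sgn x * b x ω) ^ 2 := by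
      rw [sq, sum_mul_sum]
      refine sum_congr rfl fun x _ => sum_congr rfl fun y _ => ?_
      ring
    rw [h1]
    field_simp
    ring
  have hnorm : ‖(1 / 2 ^ n : ℝ) • ∑ x, sgn x • (proc hB hst).X (Pt x)‖ ^ 2
      = (1 / (2 ^ n * 2 ^ n)) * ∑ x, ∑ y, sgn x * sgn y * ∫ ω, b x ω * b y ω ∂P := by
    rw [← real_inner_self_eq_norm_sq, real_inner_smul_left, real_inner_smul_right, sum_inner]
    have h1 : ∀ x, inner ℝ (sgn x • (proc hB hst).X (Pt x)) (∑ y, sgn y • (proc hB hst).X (Pt y))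
        = ∑ y, sgn x * sgn y * ∫ ω, b x ω * b y ω ∂P := by
      intro x
      rw [inner_sum]
      refine sum_congr rfl fun y _ => ?_
      rw [real_inner_smul_left, real_inner_smul_right, ← integral_bb hB hst Pt x y]
      ring
    rw [sum_congr rfl fun x _ => h1 x]
    ring
  have hae : ∀ᵐ ω ∂P, c - (4 * c / (2 ^ n * 2 ^ n)) * ∑ x, ∑ y, sgn x * sgn y * (b x ω * b y ω)
      ≤ 1 / 2 - (∑ x, b x ω) / 2 ^ n := by
    filter_upwards [ae_indep hB hst h0 hPt] with ω hω
    rw [← hsq]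
    exact hc _ hω
  have i1 : Integrable (fun ω => ∑ x, ∑ y, sgn x * sgn y * (b x ω * b y ω)) P :=
    integrable_finsetSum _ fun x _ => integrable_finsetSum _ fun y _ => (hint x y).const_mul _
  have i2 : Integrable (fun ω => ∑ x, b x ω) P := integrable_finsetSum _ fun x _ => hint1 x
  have hmono := integral_mono_ae ((integrable_const c).sub (i1.const_mul _))
    ((integrable_const (1 / 2 : ℝ)).sub (i2.div_const _)) hae
  have e1 : ∫ ω, (c - (4 * c / (2 ^ n * 2 ^ n)) * ∑ x, ∑ y, sgn x * sgn y * (b x ω * b y ω)) ∂P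
      = c - (4 * c / (2 ^ n * 2 ^ n)) * ∑ x, ∑ y, sgn x * sgn y * ∫ ω, b x ω * b y ω ∂P := by
    rw [integral_sub (integrable_const c) (i1.const_mul _), integral_const_mul,
      integral_finsetSum _ fun x _ => integrable_finsetSum _ fun y _ => (hint x y).const_mul _]
    have : ∀ x, ∫ ω, ∑ y, sgn x * sgn y * (b x ω * b y ω) ∂P
        = ∑ y, sgn x * sgn y * ∫ ω, b x ω * b y ω ∂P := by
      intro x
      rw [integral_finsetSum _ fun y _ => (hint x y).const_mul _]
      exact sum_congr rfl fun y _ => integral_const_mul _ _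
    rw [sum_congr rfl fun x _ => this x]
    simp
  have e2 : ∫ ω, (1 / 2 - (∑ x, b x ω) / 2 ^ n) ∂P = 1 / 2 - P.real (B ∅) := by
    have e4 : ∫ ω, (∑ x, b x ω) / 2 ^ n ∂P = P.real (B ∅) := by
      rw [integral_div, integral_finsetSum _ fun x _ => hint1 x, sum_congr rfl fun x _ => hI x]
      simp
    rw [integral_sub (integrable_const _) (i2.div_const _), e4]
    simp
  have e3 : c * (1 - 4 * ‖(1 / 2 ^ n : ℝ) • ∑ x, sgn x • (proc hB hst).X (Pt x)‖ ^ 2)
      = c - (4 * c / (2 ^ n * 2 ^ n)) * ∑ x, ∑ y, sgn x * sgn y * ∫ ω, b x ω * b y ω ∂P := by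
    rw [hnorm]
    ring
  rw [e3, ← e1, ← e2]
  exact hmono

end Pool.Agent.H53.CI
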