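import Mathlib
import Pool.Agent.H53.CI.Ind2

set_option autoImplicit false

/-!
# Profiles of the independent sets of the cube

`Prof n τ`: an independent set of the `n`-cube with `p` vertices in one of the two parity classes has
at most `τ p` vertices in the other class. A bound for the `n`-cube gives one for the `(n+1)`-cube.
-/

namespace Pool.Agent.H53.CI

open Finset

/-- parity -/
def pa : (n : ℕ) → (Fin n → Bool) → Bool
  | 0, _ => false
  | n + 1, x => xor (x 0) (pa n (Fin.tail x))

lemma sg_xor (a b : Bool) : sg (xor a b) = sg a * sg b := by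
  cases a <;> cases b <;> simp [sg]

lemma sgn_pa (n : ℕ) (x : Fin n → Bool) : sgn x = sg (pa n x) := by
  induction n with
  | zero => simp [sgn, pa, sg]
  | succ n ih =>
    have h1 : x = Fin.cons (x 0) (Fin.tail x) := (Fin.cons_self_tail x).symm
    have h2 : sgn x = sg (x 0) * sgn (Fin.tail x) := by
      conv_lhs => rw [h1]
      exact sgn_cons _ _
    rw [h2, ih]
    exact (sg_xor _ _).symm

lemma pa_cons {n : ℕ} (c : Bool) (x : Fin n → Bool) :
    pa (n + 1) (Fin.cons c x : Fin (n + 1) → Bool) = xor c (pa n x) := by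
  simp [pa]

/-- number of members in one parity class -/
def cnt (n : ℕ) (b : Bool) (F : (Fin n → Bool) → Bool) : ℕ :=
  (univ.filter (fun x => F x = true ∧ pa n x = b)).card

lemma cnt_succ {n : ℕ} (b : Bool) (F : (Fin (n + 1) → Bool) → Bool) :
    cnt (n + 1) b F = cnt n b (fun x => F (Fin.cons false x))
      + cnt n (!b) (fun x => F (Fin.cons true x)) := by
  unfold cnt
  rw [card_filter, card_filter, card_filter, sum_cons, sum_add_distrib]
  congr 1
  · refine sum_congr rfl fun x _ => ?_
    rw [pa_cons, Bool.false_xor]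
  · refine sum_congr rfl fun x _ => ?_
    rw [pa_cons, Bool.true_xor]
    have : ((!pa n x) = b) ↔ (pa n x = !b) := by
      cases pa n x <;> cases b <;> simp
    simp only [this]

lemma cnt_const (n : ℕ) (b : Bool) : cnt (n + 1) b (fun _ => true) = 2 ^ n := by
  induction n generalizing b with
  | zero =>
    rw [cnt_succ]
    cases b <;> decide
  | succ n ih =>
    rw [cnt_succ, ih, ih, pow_succ]
    ring

lemma cnt_add_le {n : ℕ} (b : Bool) (F G : (Fin (n + 1) → Bool) → Bool)
    (h : ∀ x, ¬ (F x = true ∧ G x = true)) : cnt (n + 1) b F + cnt (n + 1) b G ≤ 2 ^ n := by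
  rw [← cnt_const n b]
  unfold cnt
  rw [card_filter, card_filter, card_filter, ← sum_add_distrib]
  refine sum_le_sum fun x _ => ?_
  have := h x
  by_cases h1 : F x = true <;> by_cases h2 : G x = true <;> by_cases h3 : pa (n + 1) x = b <;>
    simp_all

/-- the profile bound -/
def Prof (n : ℕ) (τ : ℕ → ℕ) : Prop :=
  ∀ F : (Fin n → Bool) → Bool, Indep F → ∀ b, cnt n (!b) F ≤ τ (cnt n b F)

lemma update_cons_zero {n : ℕ} (x : Fin n → Bool) :
    Function.update (Fin.cons false x : Fin (n + 1) → Bool) 0 true = Fin.cons true x := by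
  simp

lemma update_cons_succ {n : ℕ} (c : Bool) (x : Fin n → Bool) (i : Fin n) :
    Function.update (Fin.cons c x : Fin (n + 1) → Bool) i.succ true
      = Fin.cons c (Function.update x i true) := by
  rw [Fin.cons_update]

lemma Indep.sub {n : ℕ} {F : (Fin (n + 1) → Bool) → Bool} (h : Indep F) (c : Bool) :
    Indep (fun x => F (Fin.cons c x)) := by
  intro x i hx
  have := h (Fin.cons c x) i.succ (by simpa using hx)
  rw [update_cons_succ] at this
  exact this

lemma Indep.disj {n : ℕ} {F : (Fin (n + 1) → Bool) → Bool} (h : Indep F) (x : Fin n → Bool) :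
    ¬ (F (Fin.cons false x) = true ∧ F (Fin.cons true x) = true) := by
  have := h (Fin.cons false x) 0 (by simp)
  rw [update_cons_zero] at this
  exact this

theorem Prof.step {n : ℕ} {τ τ' : ℕ → ℕ} (h : Prof (n + 1) τ)
    (hτ : ∀ p ≤ 2 ^ n, ∀ t ≤ 2 ^ n,
      min (τ p) (2 ^ n - t) + min (τ t) (2 ^ n - p) ≤ τ' (p + t)) : Prof (n + 2) τ' := by
  intro F hF b
  rw [cnt_succ (n := n + 1) (!b) F, cnt_succ (n := n + 1) b F, Bool.not_not]
  have h0 := h _ (hF.sub false) b
  have h1 := h _ (hF.sub true) (!b)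
  rw [Bool.not_not] at h1
  have h2 := cnt_add_le b (fun x => F (Fin.cons false x)) (fun x => F (Fin.cons true x))
    (fun x => hF.disj x)
  have h3 := cnt_add_le (!b) (fun x => F (Fin.cons false x)) (fun x => F (Fin.cons true x))
    (fun x => hF.disj x)
  have h4 := hτ (cnt (n + 1) b (fun x => F (Fin.cons false x))) (by omega)
    (cnt (n + 1) (!b) (fun x => F (Fin.cons true x))) (by omega)
  omega

lemma cnt_zero (b : Bool) (G : (Fin 0 → Bool) → Bool) (e : Fin 0 → Bool) :
    cnt 0 b G = if G e = true ∧ b = false then 1 else 0 := by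
  unfold cnt
  have h : ∀ x : Fin 0 → Bool, x = e := fun x => Subsingleton.elim _ _
  rw [card_filter, Fintype.sum_eq_single e fun x hx => absurd (h x) hx]
  have h2 : pa 0 e = false := rfl
  rw [h2]
  simp only [eq_comm (a := false)]

lemma prof_one : Prof 1 (fun p => 1 - p) := by
  intro F hF b
  obtain ⟨e, -⟩ : ∃ e : Fin 0 → Bool, e = e := ⟨default, rfl⟩
  have h := hF.disj e
  rw [cnt_succ (n := 0) (!b) F, cnt_succ (n := 0) b F, Bool.not_not]
  simp only [cnt_zero _ _ e]
  cases b <;> cases h1 : F (Fin.cons false e) <;> cases h2 : F (Fin.cons true e) <;>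
    simp_all

/-- reading a table -/
def rd (w T p : ℕ) : ℕ := T / 2 ^ (w * p) % 2 ^ w

/-- the check for one step -/
def chk (N w T w' T' : ℕ) : Bool :=
  (List.range (N + 1)).all fun p => (List.range (N + 1)).all fun t =>
    Nat.ble (min (rd w T p) (N - t) + min (rd w T t) (N - p)) (rd w' T' (p + t))

lemma Prof.next {n w T w' T' : ℕ} (h : Prof (n + 1) (rd w T)) (hc : chk (2 ^ n) w T w' T' = true) :
    Prof (n + 2) (rd w' T') := by
  refine h.step fun p hp t ht => ?_
  unfold chk at hc
  rw [List.all_eq_true] at hc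
  have h1 := hc p (List.mem_range.2 (by omega))
  rw [List.all_eq_true] at h1
  exact Nat.le_of_ble_eq_true (h1 t (List.mem_range.2 (by omega)))

/-- the check of the cube inequality for `c = a / b` -/
def fin (N w T a b : ℕ) : Bool :=
  (List.range (N + 1)).all fun p => (List.range (rd w T p + 1)).all fun t =>
    Nat.ble (b * N * (p + t) + 2 * a * N ^ 2 + 4 * a * p * t) (b * N ^ 2 + 2 * a * (p ^ 2 + t ^ 2))

lemma sum_cnt {n : ℕ} (F : (Fin n → Bool) → Bool) :
    (∑ x, ind (F x) = (cnt n false F : ℝ) + cnt n true F) ∧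
    (∑ x, sgn x * ind (F x) = (cnt n false F : ℝ) - cnt n true F) := by
  unfold cnt
  rw [card_filter, card_filter]
  push_cast
  rw [← sum_add_distrib, ← sum_sub_distrib]
  constructor
  · refine sum_congr rfl fun x _ => ?_
    unfold ind
    cases F x <;> cases pa n x <;> simp
  · refine sum_congr rfl fun x _ => ?_
    rw [sgn_pa]
    unfold ind sg
    cases F x <;> cases pa n x <;> simp

theorem cubeIneq_of_prof {n w T a b : ℕ} (hb : 0 < b) (h : Prof (n + 1) (rd w T))
    (hc : fin (2 ^ n) w T a b = true) : CubeIneq (n + 1) ((a : ℝ) / b) := by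
  intro F hF
  obtain ⟨e1, e2⟩ := sum_cnt F
  rw [e1, e2]
  have h1 := h F hF false
  have h2 : cnt (n + 1) false F ≤ 2 ^ n := by
    have := cnt_add_le false F (fun _ => false) (fun x hx => Bool.false_ne_true hx.2)
    omega
  rw [Bool.not_false] at h1
  unfold fin at hc
  rw [List.all_eq_true] at hc
  have h3 := hc _ (List.mem_range.2 (by omega : cnt (n + 1) false F < 2 ^ n + 1))
  rw [List.all_eq_true] at h3
  have h4 := Nat.le_of_ble_eq_true (h3 _ (List.mem_range.2
    (by omega : cnt (n + 1) true F < rd w T (cnt (n + 1) false F) + 1)))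
  generalize cnt (n + 1) false F = p at *
  generalize cnt (n + 1) true F = t at *
  have h5 : (b : ℝ) * 2 ^ n * (p + t) + 2 * a * (2 ^ n) ^ 2 + 4 * a * p * t
      ≤ b * (2 ^ n) ^ 2 + 2 * a * (p ^ 2 + t ^ 2) := by exact_mod_cast h4
  have hN : (0 : ℝ) < 2 ^ n := by positivity
  have hb' : (0 : ℝ) < b := by exact_mod_cast hb
  set N : ℝ := 2 ^ n with hNdef
  have e3 : (2 : ℝ) ^ (n + 1) = 2 * N := by rw [pow_succ, hNdef]; ring
  rw [e3]
  have e4 : (a : ℝ) / b * (1 - (2 * ((p : ℝ) - t) / (2 * N)) ^ 2)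
      = (2 * a * N ^ 2 - 2 * a * (p - t) ^ 2) / (2 * b * N ^ 2) := by
    field_simp
  have e5 : (1 : ℝ) / 2 - (p + t) / (2 * N) = (b * N ^ 2 - b * N * (p + t)) / (2 * b * N ^ 2) := by
    field_simp
  rw [e4, e5]
  refine div_le_div_of_nonneg_right ?_ (by positivity)
  nlinarith

end Pool.Agent.H53.CI
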