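import Mathlib
import Pool.Agent.H53.CI.Law

set_option autoImplicit false

/-!
# Thresholds
-/

namespace Pool.Agent.H53.CI

open Finset MeasureTheory Filter Topology
open Pool.Agent.Results.MP_90b327_co.FractionalColouring (Stationary StatRecurrence icube mem_icube)

/-- the threshold given by a cube inequality -/
noncomputable def thr (d n : ℕ) (c : ℝ) : ℝ :=
  (1 / 2 - c) / (1 - 2 * c * (1 - (1 / 2) ^ d) ^ (n - 1))

lemma le_half {n : ℕ} {c : ℝ} (hc : CubeIneq n c) : c ≤ 1 / 2 := by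
  have h := hc (fun _ => false) (fun x i _ h => Bool.false_ne_true h.1)
  simpa [ind] using h

lemma q_bounds {d : ℕ} (hd : 1 ≤ d) : 0 ≤ 1 - ((1 : ℝ) / 2) ^ d ∧ 1 - ((1 : ℝ) / 2) ^ d < 1 := by
  have h1 : ((1 : ℝ) / 2) ^ d ≤ 1 := pow_le_one₀ (by norm_num) (by norm_num)
  have h2 : (0 : ℝ) < (1 / 2) ^ d := by positivity
  constructor <;> linarith

lemma den_pos {d n : ℕ} {c : ℝ} (hd : 1 ≤ d) (hn : 2 ≤ n) (hc0 : 0 ≤ c) (hc1 : c ≤ 1 / 2) :
    0 < 1 - 2 * c * (1 - (1 / 2 : ℝ) ^ d) ^ (n - 1) := by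
  obtain ⟨h1, h2⟩ := q_bounds hd
  have h3 : (1 - (1 / 2 : ℝ) ^ d) ^ (n - 1) < 1 := pow_lt_one₀ h1 h2 (by omega)
  have h4 : 0 ≤ (1 - (1 / 2 : ℝ) ^ d) ^ (n - 1) := pow_nonneg h1 _
  nlinarith

theorem statRecurrence_of_cubeIneq {d n : ℕ} {c : ℝ} (hd : 1 ≤ d) (hn : 2 ≤ n) (hc0 : 0 ≤ c)
    (hc : CubeIneq n c) {δ : ℝ} (hδ : thr d n c < δ) : StatRecurrence d δ := by
  intro Ω _ P _ B hB hst hD
  by_contra hcon
  push Not at hcon
  have h0 : ∀ k, 1 ≤ k → P.real (B ∅ ∩ B (icube d (range k))) = 0 := fun k hk =>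
    le_antisymm (hcon k hk) measureReal_nonneg
  obtain ⟨m, rfl⟩ : ∃ m, n = m + 1 := ⟨n - 1, by omega⟩
  set D := P.real (B ∅) with hDdef
  have hcor : (proc hB hst).cor 1 = 0 := by
    rw [proc_cor]
    exact h0 1 le_rfl
  have hv : (proc hB hst).v = D := proc_v hB hst
  have hε : ∀ ε : ℝ, 0 < ε →
      D ≤ 1 / 2 - c + 2 * c * ((1 - (1 / 2) ^ d + ε) ^ m * D) := by
    intro ε hε
    obtain ⟨Pt, hPt, h1⟩ := Proc.iter_one hd hε m (proc hB hst) hcor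
    have h2 := averaged hd hB hst h0 hc hPt
    rw [hv] at h1
    have h3 := mul_le_mul_of_nonneg_left h1 hc0
    rw [← hDdef] at h2
    linarith
  have hlim : D ≤ 1 / 2 - c + 2 * c * ((1 - (1 / 2) ^ d + 0) ^ m * D) := by
    have hcont : Continuous (fun ε : ℝ => 1 / 2 - c + 2 * c * ((1 - (1 / 2) ^ d + ε) ^ m * D)) := by
      fun_prop
    have ht : Tendsto (fun ε : ℝ => 1 / 2 - c + 2 * c * ((1 - (1 / 2) ^ d + ε) ^ m * D))
        (𝓝[>] 0) (𝓝 (1 / 2 - c + 2 * c * ((1 - (1 / 2) ^ d + 0) ^ m * D))) :=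
      (hcont.tendsto 0).mono_left nhdsWithin_le_nhds
    refine ge_of_tendsto ht ?_
    filter_upwards [self_mem_nhdsWithin] with ε hε'
    exact hε ε hε'
  rw [add_zero] at hlim
  have hden := den_pos hd hn hc0 (le_half hc)
  unfold thr at hδ
  rw [div_lt_iff₀ hden] at hδ
  simp only [Nat.add_sub_cancel] at hδ hden
  have h5 : D * (1 - 2 * c * (1 - (1 / 2) ^ d) ^ m) ≤ 1 / 2 - c := by linarith
  have h6 := mul_le_mul_of_nonneg_right hD hden.le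
  linarith

/-! ### numerical consequences -/

lemma thr_four (d : ℕ) :
    thr d 4 (12 / 55) = 31 / (110 - 48 * (1 - (1 / 2) ^ d) ^ 3) := by
  unfold thr
  have e : (4 - 1 : ℕ) = 3 := rfl
  rw [e]
  generalize (1 - ((1 : ℝ) / 2) ^ d) ^ 3 = x
  have h1 : (1 : ℝ) / 2 - 12 / 55 = 31 / 110 := by norm_num
  have h2 : 1 - 2 * (12 / 55) * x = (110 - 48 * x) / 110 := by ring
  rw [h1, h2, div_div_div_cancel_right₀ (by norm_num)]

lemma bern (t : ℝ) (ht : 0 ≤ t) (m : ℕ) :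
    1 + m * t + m * (m - 1) / 2 * t ^ 2 ≤ (1 + t) ^ m := by
  induction m with
  | zero => simp
  | succ m ih =>
    rw [pow_succ]
    have h1 : (1 + m * t + m * (m - 1) / 2 * t ^ 2) * (1 + t) ≤ (1 + t) ^ m * (1 + t) :=
      mul_le_mul_of_nonneg_right ih (by linarith)
    refine le_trans ?_ h1
    push_cast
    have h2 : 0 ≤ (m : ℝ) * (m - 1) / 2 * t ^ 3 := by
      rcases Nat.eq_zero_or_pos m with h | h
      · rw [h]; simp
      · have : (1 : ℝ) ≤ m := by exact_mod_cast h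
        have h3 : 0 ≤ (m : ℝ) - 1 := by linarith
        positivity
    nlinarith

lemma x_bound {m : ℕ} (hm : 3 ≤ m) : (1 - 1 / ((m : ℝ) + 1)) ^ m ≤ 3 / 7 := by
  have hm' : (3 : ℝ) ≤ m := by exact_mod_cast hm
  have hm0 : (0 : ℝ) < m := by linarith
  have h1 : 1 - 1 / ((m : ℝ) + 1) = 1 / (1 + 1 / m) := by
    field_simp
    ring
  rw [h1, one_div, inv_pow]
  have h2 := bern (1 / (m : ℝ)) (by positivity) m
  have h3 : (7 : ℝ) / 3 ≤ 1 + m * (1 / m) + m * (m - 1) / 2 * (1 / m) ^ 2 := by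
    have e1 : (m : ℝ) * (1 / m) = 1 := by field_simp
    have e2 : (m : ℝ) * (m - 1) / 2 * (1 / m) ^ 2 = 1 / 2 - 1 / (2 * m) := by
      field_simp
    rw [e1, e2]
    have e3 : 1 / (2 * (m : ℝ)) ≤ 1 / (2 * 3) := by
      apply one_div_le_one_div_of_le <;> linarith
    linarith
  have h4 : (7 : ℝ) / 3 ≤ (1 + 1 / (m : ℝ)) ^ m := h3.trans h2
  have h5 : ((1 + 1 / (m : ℝ)) ^ m)⁻¹ ≤ (7 / 3)⁻¹ := inv_anti₀ (by norm_num) h4
  refine h5.trans (by norm_num)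

lemma thr_general (d : ℕ) (hd : 2 ≤ d) :
    thr d (2 ^ d) (1 / (Real.sqrt 2 * Real.pi * Real.sqrt (2 ^ d : ℕ)))
      ≤ 1 / 2 - 1 / (8 * Real.sqrt (2 ^ d)) := by
  have e0 : ((2 ^ d : ℕ) : ℝ) = 2 ^ d := by push_cast; rfl
  rw [e0]
  set r : ℝ := Real.sqrt (2 ^ d) with hr
  have h2d : (4 : ℝ) ≤ 2 ^ d := by
    calc (4 : ℝ) = 2 ^ 2 := by norm_num
      _ ≤ 2 ^ d := pow_le_pow_right₀ (by norm_num) hd
  have hr2 : 2 ≤ r := by
    rw [hr]
    apply Real.le_sqrt_of_sq_le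
    linarith
  have hr0 : 0 < r := by linarith
  have hs0 : 0 < Real.sqrt 2 := Real.sqrt_pos.2 (by norm_num)
  have hs1 : Real.sqrt 2 ≤ 1.4143 := by
    rw [Real.sqrt_le_left (by norm_num)]
    norm_num
  have hs2 : 1 ≤ Real.sqrt 2 := by
    apply Real.le_sqrt_of_sq_le
    norm_num
  have hp0 := Real.pi_pos
  have hp1 : Real.pi ≤ 3.1416 := Real.pi_lt_d4.le
  have hp3 : 3 ≤ Real.pi := Real.pi_gt_three.le
  have hsp : Real.sqrt 2 * Real.pi ≤ 32 / 7 := by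
    calc Real.sqrt 2 * Real.pi ≤ 1.4143 * 3.1416 := by gcongr
      _ ≤ 32 / 7 := by norm_num
  set c : ℝ := 1 / (Real.sqrt 2 * Real.pi * r) with hc
  have hc0 : 0 < c := by positivity
  have hc1 : c ≤ 1 / 2 := by
    rw [hc]
    apply one_div_le_one_div_of_le (by norm_num)
    nlinarith [mul_le_mul hs2 hp3 (by norm_num) hs0.le]
  set x : ℝ := (1 - (1 / 2) ^ d) ^ (2 ^ d - 1) with hx
  have hm3 : 3 ≤ 2 ^ d - 1 := by
    have : 2 ^ 2 ≤ 2 ^ d := Nat.pow_le_pow_right (by norm_num) hd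
    omega
  have hx1 : x ≤ 3 / 7 := by
    have h1 := x_bound hm3
    have h2 : ((2 ^ d - 1 : ℕ) : ℝ) + 1 = 2 ^ d := by
      have : 2 ^ d - 1 + 1 = 2 ^ d := Nat.sub_add_cancel Nat.one_le_two_pow
      exact_mod_cast this
    rw [h2] at h1
    rw [hx]
    have h3 : (1 / 2 : ℝ) ^ d = 1 / 2 ^ d := by rw [div_pow, one_pow]
    rw [h3]
    exact h1
  have hx0 : 0 ≤ x := pow_nonneg (q_bounds (by omega)).1 _
  have hden : 0 < 1 - 2 * c * x := by nlinarith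
  have h1 : thr d (2 ^ d) c ≤ 1 / 2 - c * (1 - x) := by
    unfold thr
    rw [← hx, div_le_iff₀ hden]
    nlinarith [mul_nonneg (mul_nonneg hc0.le hc0.le) (mul_nonneg hx0 (by linarith : 0 ≤ 1 - x))]
  have h2 : 1 / (8 * r) ≤ c * (1 - x) := by
    have h3 : c * (4 / 7) ≤ c * (1 - x) := by
      apply mul_le_mul_of_nonneg_left _ hc0.le
      linarith
    refine le_trans ?_ h3
    rw [hc, div_mul_eq_mul_div, one_mul, div_le_div_iff₀ (by positivity) (by positivity)]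
    nlinarith
  linarith

end Pool.Agent.H53.CI
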