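import Mathlib
import Pool.Agent.H53.CI.Thr
import Pool.Agent.H53.CI.Tab
import Pool.Agent.H53.CI.Gen

set_option autoImplicit false

/-!
# Numerical consequences
-/

namespace Pool.Agent.H53.CI

open Finset

lemma thr_six (d : ℕ) :
    thr d 6 (40 / 231) = 151 / (462 - 160 * (1 - (1 / 2) ^ d) ^ 5) := by
  unfold thr
  have e : (6 - 1 : ℕ) = 5 := rfl
  rw [e]
  generalize (1 - ((1 : ℝ) / 2) ^ d) ^ 5 = x
  have h1 : (1 : ℝ) / 2 - 40 / 231 = 151 / 462 := by norm_num
  have h2 : 1 - 2 * (40 / 231) * x = (462 - 160 * x) / 462 := by ring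
  rw [h1, h2, div_div_div_cancel_right₀ (by norm_num)]

lemma thr_ten (d : ℕ) :
    thr d 10 (8064 / 61567) = 45439 / (123134 - 32256 * (1 - (1 / 2) ^ d) ^ 9) := by
  unfold thr
  have e : (10 - 1 : ℕ) = 9 := rfl
  rw [e]
  generalize (1 - ((1 : ℝ) / 2) ^ d) ^ 9 = x
  have h1 : (1 : ℝ) / 2 - 8064 / 61567 = 45439 / 123134 := by norm_num
  have h2 : 1 - 2 * (8064 / 61567) * x = (123134 - 32256 * x) / 123134 := by ring
  rw [h1, h2, div_div_div_cancel_right₀ (by norm_num)]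

/-- the gap for large dimension -/
lemma thr_large (d : ℕ) (hd : 4 ≤ d) :
    thr d (5 * 2 ^ (d - 2) + 1) (1 / (2 * Real.sqrt (2 * (5 * 2 ^ (d - 2) + 1 : ℕ) - 1)))
      ≤ 1 / 2 - 2 / (9 * Real.sqrt (2 ^ d)) := by
  set N : ℝ := 2 ^ d with hN
  have hN16 : (16 : ℝ) ≤ N := by
    calc (16 : ℝ) = 2 ^ 4 := by norm_num
      _ ≤ 2 ^ d := pow_le_pow_right₀ (by norm_num) hd
  have hk : ((5 * 2 ^ (d - 2) : ℕ) : ℝ) = 5 / 4 * N := by
    obtain ⟨e, rfl⟩ : ∃ e, d = e + 2 := ⟨d - 2, by omega⟩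
    push_cast
    rw [hN, pow_add]
    ring
  have e1 : (2 : ℝ) * ((5 * 2 ^ (d - 2) + 1 : ℕ) : ℝ) - 1 = 5 / 2 * N + 1 := by
    rw [Nat.cast_add, hk]
    push_cast
    ring
  rw [e1]
  set s : ℝ := Real.sqrt (5 / 2 * N + 1) with hs
  set r : ℝ := Real.sqrt N with hr
  have hr0 : 0 < r := Real.sqrt_pos.2 (by linarith)
  have hs1 : 1 < s := by
    rw [hs, Real.lt_sqrt (by norm_num)]
    linarith
  -- the power
  set x : ℝ := (1 - (1 / 2) ^ d) ^ (5 * 2 ^ (d - 2)) with hx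
  have hx0 : 0 ≤ x := pow_nonneg (q_bounds (by omega)).1 _
  have hx1 : x ≤ 2866 / 10000 := by
    have h1 : (1 - (1 / 2 : ℝ) ^ d) ≤ Real.exp (-(1 / 2) ^ d) := by
      have := Real.add_one_le_exp (-(1 / 2 : ℝ) ^ d)
      linarith
    have h2 : x ≤ Real.exp (-(1 / 2) ^ d) ^ (5 * 2 ^ (d - 2)) :=
      pow_le_pow_left₀ (q_bounds (by omega)).1 h1 _
    rw [← Real.exp_nat_mul, hk] at h2
    have h3 : 5 / 4 * N * -(1 / 2) ^ d = -(5 / 4) := by
      have : N * (1 / 2) ^ d = 1 := by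
        rw [hN, ← mul_pow]
        norm_num
      calc 5 / 4 * N * -(1 / 2) ^ d = -(5 / 4) * (N * (1 / 2) ^ d) := by ring
        _ = _ := by rw [this]; ring
    rw [h3] at h2
    have h4 : Real.exp (-(5 / 4)) = Real.exp (-1) * Real.exp (-(1 / 4)) := by
      rw [← Real.exp_add]
      norm_num
    have h5 : Real.exp (-(1 / 4)) ≤ 779 / 1000 := by
      have h6 : Real.exp (-(1 / 4)) ^ 4 = Real.exp (-1) := by
        rw [← Real.exp_nat_mul]
        norm_num
      by_contra h7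
      push Not at h7
      have h8 : (779 / 1000 : ℝ) ^ 4 < Real.exp (-(1 / 4)) ^ 4 :=
        pow_lt_pow_left₀ h7 (by norm_num) (by norm_num)
      rw [h6] at h8
      have h9 := Real.exp_neg_one_lt_d9
      norm_num at h8
      linarith
    rw [h4] at h2
    have h6 := Real.exp_neg_one_lt_d9
    have h7 : Real.exp (-1) * Real.exp (-(1 / 4)) ≤ 0.3678794413 * (779 / 1000) := by
      have h8 := Real.exp_pos (-1 : ℝ)
      have h9 := Real.exp_pos (-(1 / 4) : ℝ)
      have h10 : Real.exp (-1) ≤ 0.3678794413 := h6.le.trans (by norm_num)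
      exact mul_le_mul h10 h5 h9.le (by norm_num)
    refine h2.trans (h7.trans ?_)
    norm_num
  set c : ℝ := 1 / (2 * s) with hc
  have hs0 : 0 < s := by linarith
  have hc0 : 0 < c := by positivity
  have hc1 : c ≤ 1 / 2 := by
    rw [hc]
    apply one_div_le_one_div_of_le (by norm_num)
    linarith
  have hden : 0 < 1 - 2 * c * x := by nlinarith
  have h1 : thr d (5 * 2 ^ (d - 2) + 1) c ≤ 1 / 2 - c * (1 - x) := by
    unfold thr
    rw [Nat.add_sub_cancel, ← hx, div_le_iff₀ hden]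
    nlinarith [mul_nonneg (mul_nonneg hc0.le hc0.le) (mul_nonneg hx0 (by linarith : 0 ≤ 1 - x))]
  have h2 : 2 / (9 * r) ≤ c * (1 - x) := by
    have h3 : c * (7134 / 10000) ≤ c * (1 - x) := by
      apply mul_le_mul_of_nonneg_left _ hc0.le
      linarith
    refine le_trans ?_ h3
    have h4 : s ≤ 16051 / 10000 * r := by
      rw [hs, Real.sqrt_le_left (by positivity), mul_pow, hr, Real.sq_sqrt (by linarith)]
      nlinarith
    rw [hc, div_mul_eq_mul_div, one_mul, div_le_div_iff₀ (by positivity) (by positivity)]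
    nlinarith
  linarith

end Pool.Agent.H53.CI
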